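import Pool.Agent.N326.AV.Core

/-!
# The covering numbers of all pieces of a digit set
-/

set_option autoImplicit false

open Filter Topology Finset

namespace Pool.Agent.N326.AV

/-- every piece of `B` of radius `ρ` is covered by `C (ρ / δ) ^ s` sets of diameter `δ` -/
def AssouadLE {n : ℕ} (B : Set (E n)) (s : ℝ) : Prop :=
  ∃ C : ℝ, ∀ (x : E n) (δ ρ : ℝ), 0 < δ → δ ≤ ρ →
    (coverNum (B ∩ Metric.closedBall x ρ) δ : ℝ) ≤ C * (ρ / δ) ^ s

theorem AssouadLE.mono {n : ℕ} {B : Set (E n)} {s t : ℝ} (h : AssouadLE B s) (hst : s ≤ t) :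
    AssouadLE B t := by
  obtain ⟨C, hC⟩ := h
  refine ⟨|C|, fun x δ ρ hδ hρ => (hC x δ ρ hδ hρ).trans ?_⟩
  have h1 : 1 ≤ ρ / δ := (one_le_div hδ).mpr hρ
  have h2 : (ρ / δ) ^ s ≤ (ρ / δ) ^ t := Real.rpow_le_rpow_of_exponent_le h1 hst
  have h3 : 0 ≤ (ρ / δ) ^ s := Real.rpow_nonneg (by linarith) _
  calc C * (ρ / δ) ^ s ≤ |C| * (ρ / δ) ^ s := mul_le_mul_of_nonneg_right (le_abs_self _) h3
    _ ≤ |C| * (ρ / δ) ^ t := mul_le_mul_of_nonneg_left h2 (abs_nonneg _)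

/-- the level `m` and the possible values of the first `m` digits -/
theorem exists_level {n : ℕ} {N : ℕ} (hN : 2 ≤ N) (L : ℕ) (x : E n) {ρ : ℝ} (hρ : 0 < ρ) :
    ∃ (m : ℕ) (P : Finset (Fin n → ℤ)), ((N : ℝ) ^ m)⁻¹ ≤ N * ρ ∧ P.card ≤ (2 * L + 3) ^ n ∧
      ∀ w : ℕ → Fin n → ℤ, (∀ i c, |w i c| ≤ L) → dist (val N w) x ≤ ρ → head N w m ∈ P := by
  have hN' : (2 : ℝ) ≤ N := by exact_mod_cast hN
  rcases le_or_gt ρ 1 with h1 | h1
  · obtain ⟨m, hm1, hm2⟩ := exists_nat_pow_near_of_lt_one hρ h1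
      (show (0 : ℝ) < (N : ℝ)⁻¹ by positivity) (inv_lt_one_of_one_lt₀ (by linarith))
    rw [inv_pow] at hm1 hm2
    refine ⟨m, Fintype.piFinset fun c => Icc ⌈(N : ℝ) ^ m * x c - (1 + L)⌉
      ⌊(N : ℝ) ^ m * x c + (1 + L)⌋, ?_, ?_, ?_⟩
    · rw [pow_succ, mul_inv] at hm1
      have : ((N : ℝ) ^ m)⁻¹ = N * (((N : ℝ) ^ m)⁻¹ * (N : ℝ)⁻¹) := by
        field_simp
      rw [this]
      exact mul_le_mul_of_nonneg_left hm1.le (by positivity)
    · rw [Fintype.card_piFinset]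
      refine (Finset.prod_le_prod' (g := fun _ => 2 * L + 3) fun c _ => ?_).trans ?_
      · rw [Int.card_Icc]
        have h2 := Int.le_ceil ((N : ℝ) ^ m * x c - (1 + L))
        have h3 := Int.floor_le ((N : ℝ) ^ m * x c + (1 + L))
        have h4 : ((⌊(N : ℝ) ^ m * x c + (1 + L)⌋ + 1 - ⌈(N : ℝ) ^ m * x c - (1 + L)⌉ : ℤ) : ℝ) ≤
            ((2 * L + 3 : ℤ) : ℝ) := by
          push_cast
          linarith
        have h5 : (⌊(N : ℝ) ^ m * x c + (1 + L)⌋ + 1 - ⌈(N : ℝ) ^ m * x c - (1 + L)⌉ : ℤ) ≤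
            2 * L + 3 := by exact_mod_cast h4
        omega
      · rw [Finset.prod_const, Finset.card_univ, Fintype.card_fin]
    · intro w hw hd
      rw [Fintype.mem_piFinset]
      intro c
      have h2 := (coord_le_dist (val N w) x c).trans hd
      have h3 := val_split hN hw m c
      have h4 := val_bound hN (w := fun i => w (i + m)) (fun i c => hw _ c) c
      have hNm : (0 : ℝ) < (N : ℝ) ^ m := by positivity
      have h5 : (head N w m c : ℝ) = (N : ℝ) ^ m * val N w c - val N (fun i => w (i + m)) c := by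
        rw [h3]
        field_simp
        ring
      have h6 : |(N : ℝ) ^ m * val N w c - (N : ℝ) ^ m * x c| ≤ 1 := by
        rw [← mul_sub, abs_mul, abs_of_pos hNm]
        calc (N : ℝ) ^ m * |val N w c - x c| ≤ (N : ℝ) ^ m * ρ :=
              mul_le_mul_of_nonneg_left h2 hNm.le
          _ ≤ (N : ℝ) ^ m * ((N : ℝ) ^ m)⁻¹ := mul_le_mul_of_nonneg_left hm2 hNm.le
          _ = 1 := mul_inv_cancel₀ hNm.ne'
      rw [abs_le] at h4 h6
      rw [Finset.mem_Icc]
      constructor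
      · rw [Int.ceil_le, h5]
        linarith [h4.1, h4.2, h6.1, h6.2]
      · rw [Int.le_floor, h5]
        linarith [h4.1, h4.2, h6.1, h6.2]
  · refine ⟨0, {0}, ?_, ?_, ?_⟩
    · rw [pow_zero, inv_one]
      nlinarith
    · rw [card_singleton]
      exact Nat.one_le_pow _ _ (by omega)
    · intro w _ _
      exact mem_singleton.mpr rfl

theorem assouad_digitSet {n : ℕ} {N : ℕ} (hN : 2 ≤ N) {D : Finset (Fin n → ℤ)} (hD : D.Nonempty) :
    AssouadLE (digitSet N D) (Real.log D.card / Real.log N) := by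
  classical
  obtain ⟨L, hL⟩ := exists_bound D
  have hN' : (2 : ℝ) ≤ N := by exact_mod_cast hN
  have hlogN : 0 < Real.log N := Real.log_pos (by linarith)
  have hD1 : 1 ≤ D.card := hD.card_pos
  have hD1' : (1 : ℝ) ≤ D.card := by exact_mod_cast hD1
  set s : ℝ := Real.log D.card / Real.log N with hs
  have hs0 : 0 ≤ s := div_nonneg (Real.log_nonneg hD1') hlogN.le
  have hNs : (N : ℝ) ^ s = D.card := by
    rw [Real.rpow_def_of_pos (by linarith), hs, mul_div_cancel₀ _ hlogN.ne', Real.exp_log (by linarith)]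
  set Δ : ℝ := n * (2 * L) + 1 with hΔ
  have hΔ1 : 1 ≤ Δ := by
    have : (0 : ℝ) ≤ n * (2 * L) := by positivity
    linarith
  refine ⟨((2 * L + 3 : ℕ) ^ n : ℕ) * D.card * (Δ * N) ^ s, fun x δ ρ hδ hρ => ?_⟩
  have hρ0 : 0 < ρ := lt_of_lt_of_le hδ hρ
  obtain ⟨m, P, hm, hP, hw⟩ := exists_level hN L x hρ0
  have hY : 1 ≤ Δ * N * (ρ / δ) := by
    have h1 : 1 ≤ ρ / δ := (one_le_div hδ).mpr hρ
    nlinarith [mul_le_mul hΔ1 (show (1 : ℝ) ≤ N by linarith) zero_le_one (by linarith)]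
  obtain ⟨l, hl1, hl2⟩ := exists_nat_pow_near hY (show (1 : ℝ) < N by linarith)
  -- the covering
  let U : (P × (Fin (l + 1) → D)) → Set (E n) := fun q =>
    {y | ∃ w : ℕ → Fin n → ℤ, (∀ i, w i ∈ D) ∧ y = val N w ∧ head N w m = q.1 ∧
      ∀ i : Fin (l + 1), w (i + m) = q.2 i}
  have hU1 : ∀ q, ∀ y ∈ U q, ∀ z ∈ U q, dist y z ≤ δ := by
    rintro q y ⟨w, hwD, rfl, h1, h2⟩ z ⟨w', hwD', rfl, h1', h2'⟩
    have h3 : ∀ c, |val N w c - val N w' c| ≤ 2 * L * ((N : ℝ) ^ (m + (l + 1)))⁻¹ := by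
      intro c
      refine coord_dist hN (fun i c => hL _ (hwD i) c) (fun i c => hL _ (hwD' i) c) m (l + 1)
        (h1.trans h1'.symm) (fun i hi => ?_) c
      exact (h2 ⟨i, hi⟩).trans (h2' ⟨i, hi⟩).symm
    refine (dist_le_of_coord (by positivity) h3).trans ?_
    have h4 : (n : ℝ) * (2 * L * ((N : ℝ) ^ (m + (l + 1)))⁻¹) ≤
        Δ * ((N : ℝ) ^ (m + (l + 1)))⁻¹ := by
      rw [← mul_assoc]
      refine mul_le_mul_of_nonneg_right ?_ (by positivity)
      linarith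
    refine h4.trans ?_
    rw [pow_add, mul_inv]
    have h5 : ((N : ℝ) ^ (l + 1))⁻¹ ≤ (Δ * N * (ρ / δ))⁻¹ :=
      inv_anti₀ (by linarith) hl2.le
    calc Δ * (((N : ℝ) ^ m)⁻¹ * ((N : ℝ) ^ (l + 1))⁻¹)
        ≤ Δ * ((N * ρ) * (Δ * N * (ρ / δ))⁻¹) := by
          refine mul_le_mul_of_nonneg_left ?_ (by linarith)
          exact mul_le_mul hm h5 (by positivity) (by positivity)
      _ = δ := by
          have hΔ0 : Δ ≠ 0 := by linarith
          have hN0 : (N : ℝ) ≠ 0 := by linarith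
          have hρ1 : ρ ≠ 0 := hρ0.ne'
          have hδ1 : δ ≠ 0 := hδ.ne'
          field_simp
  have hU2 : digitSet N D ∩ Metric.closedBall x ρ ⊆ ⋃ q, U q := by
    rintro y ⟨⟨w, hwD, rfl⟩, hy⟩
    rw [Metric.mem_closedBall] at hy
    have h1 := hw w (fun i c => hL _ (hwD i) c) hy
    exact Set.mem_iUnion.mpr ⟨(⟨_, h1⟩, fun i => ⟨w (i + m), hwD _⟩), w, hwD, rfl, rfl, fun i => rfl⟩
  have h1 := coverNum_le_card U hU1 hU2
  have h2 : Fintype.card (P × (Fin (l + 1) → D)) = P.card * D.card ^ (l + 1) := by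
    rw [Fintype.card_prod, Fintype.card_coe, Fintype.card_pi, Finset.prod_const, Finset.card_univ,
      Fintype.card_fin, Fintype.card_coe]
  rw [h2] at h1
  have h3 : coverNum (digitSet N D ∩ Metric.closedBall x ρ) δ ≤
      (2 * L + 3) ^ n * D.card ^ (l + 1) := h1.trans (Nat.mul_le_mul_right _ hP)
  have h4 : ((D.card : ℝ)) ^ l ≤ (Δ * N) ^ s * (ρ / δ) ^ s := by
    have h5 : ((D.card : ℝ)) ^ l = ((N : ℝ) ^ l) ^ s := by
      rw [← hNs, ← Real.rpow_natCast, ← Real.rpow_mul (by linarith), mul_comm s,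
        Real.rpow_mul (by linarith), Real.rpow_natCast]
    rw [h5, ← Real.mul_rpow (by nlinarith) (by positivity)]
    exact Real.rpow_le_rpow (by positivity) hl1 hs0
  calc (coverNum (digitSet N D ∩ Metric.closedBall x ρ) δ : ℝ)
      ≤ ((2 * L + 3) ^ n * D.card ^ (l + 1) : ℕ) := by exact_mod_cast h3
    _ = ((2 * L + 3 : ℕ) ^ n : ℕ) * D.card * (D.card : ℝ) ^ l := by
        push_cast
        ring
    _ ≤ ((2 * L + 3 : ℕ) ^ n : ℕ) * D.card * ((Δ * N) ^ s * (ρ / δ) ^ s) := by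
        refine mul_le_mul_of_nonneg_left h4 (by positivity)
    _ = ((2 * L + 3 : ℕ) ^ n : ℕ) * D.card * (Δ * N) ^ s * (ρ / δ) ^ s := by ring

/-! ### Compactness and self-similarity -/

theorem digitSet_nonempty {n : ℕ} {N : ℕ} {D : Finset (Fin n → ℤ)} (hD : D.Nonempty) :
    (digitSet N D).Nonempty := by
  obtain ⟨d, hd⟩ := hD
  exact ⟨_, fun _ => d, fun _ => hd, rfl⟩

theorem digitSet_isCompact {n : ℕ} {N : ℕ} (hN : 2 ≤ N) (D : Finset (Fin n → ℤ)) :
    IsCompact (digitSet N D) := by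
  obtain ⟨L, hL⟩ := exists_bound D
  have hN' : (2 : ℝ) ≤ N := by exact_mod_cast hN
  have h1 : digitSet N D = Set.range fun w : ℕ → D => (val N fun i => (w i : Fin n → ℤ) : E n) := by
    ext x
    constructor
    · rintro ⟨w, hw, rfl⟩
      exact ⟨fun i => ⟨w i, hw i⟩, rfl⟩
    · rintro ⟨w, rfl⟩
      exact ⟨fun i => w i, fun i => (w i).2, rfl⟩
  rw [h1]
  refine isCompact_range ?_
  unfold val
  refine (PiLp.continuous_toLp 2 _).comp (continuous_pi fun c => ?_)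
  refine continuous_tsum (u := fun i => (L : ℝ) * ((N : ℝ) ^ (i + 1))⁻¹) (fun i => ?_)
    ((geom_summable hN).mul_left _) fun i w => ?_
  · have h2 : Continuous fun w : ℕ → D => (((w i : Fin n → ℤ) c : ℤ) : ℝ) := by
      have h3 : Continuous fun d : D => (((d : Fin n → ℤ) c : ℤ) : ℝ) := continuous_of_discreteTopology
      exact h3.comp (continuous_apply i)
    exact h2.mul continuous_const
  · rw [norm_mul, Real.norm_eq_abs, Real.norm_of_nonneg (by positivity)]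
    refine mul_le_mul_of_nonneg_right ?_ (by positivity)
    have := hL _ (w i).2 c
    exact_mod_cast this

/-- the real vector of an integer vector -/
noncomputable def toE {n : ℕ} (d : Fin n → ℤ) : E n := WithLp.toLp 2 fun c => (d c : ℝ)

theorem digitSet_selfSimilar {n : ℕ} {N : ℕ} (hN : 2 ≤ N) (D : Finset (Fin n → ℤ)) :
    digitSet N D = ⋃ d ∈ D, (fun x : E n => ((N : ℝ)⁻¹) • (x + toE d)) '' digitSet N D := by
  obtain ⟨L, hL⟩ := exists_bound D
  ext x
  constructor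
  · rintro ⟨w, hw, rfl⟩
    rw [Set.mem_iUnion₂]
    refine ⟨w 0, hw 0, val N (fun i => w (i + 1)), ⟨_, fun i => hw _, rfl⟩, ?_⟩
    ext c
    rw [val_split hN (fun i c => hL _ (hw i) c) 1 c]
    simp [head, toE]
    ring
  · rw [Set.mem_iUnion₂]
    rintro ⟨d, hd, y, ⟨w, hw, rfl⟩, rfl⟩
    let w' : ℕ → Fin n → ℤ := fun i => Nat.casesOn i d w
    have hw' : ∀ i, w' i ∈ D := by
      intro i
      cases i with
      | zero => exact hd
      | succ i => exact hw i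
    refine ⟨w', hw', ?_⟩
    ext c
    rw [val_split hN (fun i c => hL _ (hw' i) c) 1 c]
    have h1 : (fun i => w' (i + 1)) = w := rfl
    rw [h1]
    simp [head, toE, w']
    ring

end Pool.Agent.N326.AV
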