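import Pool.Agent.N326.AV.Dim

/-!
# Blocks of digits
-/

set_option autoImplicit false

open Filter Topology Finset

namespace Pool.Agent.N326.AV

/-- the integer vectors given by `m` digit vectors in `D` -/
def heads {n : ℕ} (N : ℕ) (D : Finset (Fin n → ℤ)) : ℕ → Finset (Fin n → ℤ)
  | 0 => {0}
  | m + 1 => ((heads N D m) ×ˢ D).image fun q c => N * q.1 c + q.2 c

theorem head_mem_heads {n : ℕ} {N : ℕ} {D : Finset (Fin n → ℤ)} {w : ℕ → Fin n → ℤ} :
    ∀ {m : ℕ}, (∀ i < m, w i ∈ D) → head N w m ∈ heads N D m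
  | 0, _ => by simp [head, heads]
  | m + 1, h => by
    rw [heads, mem_image]
    refine ⟨(head N w m, w m), mem_product.mpr ⟨head_mem_heads fun i hi => h i (by omega),
      h m (by omega)⟩, rfl⟩

theorem exists_word {n : ℕ} {N : ℕ} {D : Finset (Fin n → ℤ)} : ∀ {m : ℕ} {p : Fin n → ℤ},
    p ∈ heads N D m → ∃ w : ℕ → Fin n → ℤ, (∀ i < m, w i ∈ D) ∧ head N w m = p
  | 0, p, hp => ⟨fun _ => 0, fun i hi => absurd hi (by omega), by
      rw [heads, mem_singleton] at hp
      rw [hp]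
      rfl⟩
  | m + 1, p, hp => by
    rw [heads, mem_image] at hp
    obtain ⟨⟨q, d⟩, hq, rfl⟩ := hp
    rw [mem_product] at hq
    obtain ⟨w, hw, hwq⟩ := exists_word hq.1
    refine ⟨Function.update w m d, fun i hi => ?_, ?_⟩
    · by_cases him : i = m
      · rw [him, Function.update_self]
        exact hq.2
      · rw [Function.update_of_ne him]
        exact hw i (by omega)
    · have h1 : head N (Function.update w m d) m = head N w m :=
        head_congr N fun i hi => Function.update_of_ne (by omega) _ _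
      funext c
      simp only [head]
      rw [h1, hwq, Function.update_self]

theorem heads_nonempty {n : ℕ} {N : ℕ} {D : Finset (Fin n → ℤ)} (hD : D.Nonempty) (m : ℕ) :
    (heads N D m).Nonempty := by
  obtain ⟨d, hd⟩ := hD
  exact ⟨_, head_mem_heads (w := fun _ => d) fun _ _ => hd⟩

theorem head_add {n : ℕ} (N : ℕ) (w : ℕ → Fin n → ℤ) (a : ℕ) : ∀ (m : ℕ) (c : Fin n),
    head N w (a + m) c = (N : ℤ) ^ m * head N w a c + head N (fun i => w (i + a)) m c
  | 0, c => by simp [head]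
  | m + 1, c => by
    have h1 := head_add N w a m c
    rw [← add_assoc]
    simp only [head]
    rw [h1, add_comm m a]
    ring

/-- the sequence of the blocks of length `m` -/
def blocks {n : ℕ} (N m : ℕ) (w : ℕ → Fin n → ℤ) : ℕ → Fin n → ℤ :=
  fun j => head N (fun i => w (i + j * m)) m

theorem head_blocks {n : ℕ} (N m : ℕ) (w : ℕ → Fin n → ℤ) : ∀ j : ℕ,
    head (N ^ m) (blocks N m w) j = head N w (j * m)
  | 0 => by simp [head]
  | j + 1 => by
    funext c
    have h1 := head_add N w (j * m) m c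
    rw [show (j + 1) * m = j * m + m by ring, h1]
    simp only [head]
    rw [head_blocks N m w j]
    push_cast
    rfl

theorem val_near {n : ℕ} {N : ℕ} (hN : 2 ≤ N) {w : ℕ → Fin n → ℤ} {L : ℕ}
    (hw : ∀ i c, |w i c| ≤ L) (m : ℕ) (c : Fin n) :
    |val N w c - ((N : ℝ) ^ m)⁻¹ * (head N w m c : ℝ)| ≤ L * ((N : ℝ) ^ m)⁻¹ := by
  rw [val_split hN hw m c, mul_add, add_sub_cancel_left, abs_mul,
    abs_of_nonneg (by positivity : (0 : ℝ) ≤ ((N : ℝ) ^ m)⁻¹), mul_comm]
  exact mul_le_mul_of_nonneg_right (val_bound hN (fun i c => hw _ c) c) (by positivity)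

theorem val_blocks {n : ℕ} {N m : ℕ} (hN : 2 ≤ N) (hm : 1 ≤ m) {w : ℕ → Fin n → ℤ} {L L' : ℕ}
    (hw : ∀ i c, |w i c| ≤ L) (hw' : ∀ i c, |blocks N m w i c| ≤ L') :
    val (N ^ m) (blocks N m w) = val N w := by
  have hN' : (2 : ℝ) ≤ N := by exact_mod_cast hN
  have hNm : 2 ≤ N ^ m := hN.trans (Nat.le_self_pow (by omega) N)
  ext c
  have h1 : ∀ j : ℕ, |val (N ^ m) (blocks N m w) c - val N w c| ≤ (L + L') * ((1 : ℝ) / 2) ^ j := by
    intro j
    have h2 := val_near hNm hw' j c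
    have h3 := val_near hN hw (j * m) c
    rw [head_blocks] at h2
    have h4 : (((N ^ m : ℕ) : ℝ)) ^ j = (N : ℝ) ^ (j * m) := by
      push_cast
      rw [← pow_mul, mul_comm]
    rw [h4] at h2
    have h5 : ((N : ℝ) ^ (j * m))⁻¹ ≤ ((1 : ℝ) / 2) ^ j := by
      rw [one_div, inv_pow]
      refine inv_anti₀ (by positivity) ?_
      calc (2 : ℝ) ^ j ≤ (N : ℝ) ^ j := pow_le_pow_left₀ (by norm_num) hN' j
        _ ≤ (N : ℝ) ^ (j * m) := pow_le_pow_right₀ (by linarith) (Nat.le_mul_of_pos_right j hm)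
    calc |val (N ^ m) (blocks N m w) c - val N w c|
        ≤ |val (N ^ m) (blocks N m w) c - ((N : ℝ) ^ (j * m))⁻¹ * (head N w (j * m) c : ℝ)| +
          |val N w c - ((N : ℝ) ^ (j * m))⁻¹ * (head N w (j * m) c : ℝ)| := by
          rw [← abs_sub_comm (((N : ℝ) ^ (j * m))⁻¹ * (head N w (j * m) c : ℝ)) (val N w c)]
          exact abs_sub_le _ _ _
      _ ≤ L' * ((N : ℝ) ^ (j * m))⁻¹ + L * ((N : ℝ) ^ (j * m))⁻¹ := add_le_add h2 h3
      _ = (L + L') * ((N : ℝ) ^ (j * m))⁻¹ := by ring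
      _ ≤ (L + L') * ((1 : ℝ) / 2) ^ j := mul_le_mul_of_nonneg_left h5 (by positivity)
  have h2 : Tendsto (fun j : ℕ => ((L : ℝ) + L') * ((1 : ℝ) / 2) ^ j) atTop (𝓝 0) := by
    have := (tendsto_pow_atTop_nhds_zero_of_lt_one (by norm_num : (0 : ℝ) ≤ 1 / 2)
      (by norm_num)).const_mul ((L : ℝ) + L')
    rwa [mul_zero] at this
  have h3 : |val (N ^ m) (blocks N m w) c - val N w c| ≤ 0 := ge_of_tendsto' h2 h1
  have h4 := abs_nonpos_iff.mp h3
  linarith

/-- the digit set in base `N ^ m` -/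
theorem digitSet_blocks {n : ℕ} {N m : ℕ} (hN : 2 ≤ N) (hm : 1 ≤ m) (D : Finset (Fin n → ℤ)) :
    digitSet (N ^ m) (heads N D m) = digitSet N D := by
  obtain ⟨L, hL⟩ := exists_bound D
  obtain ⟨L', hL'⟩ := exists_bound (heads N D m)
  have key : ∀ w : ℕ → Fin n → ℤ, (∀ i, w i ∈ D) → (∀ j, blocks N m w j ∈ heads N D m) ∧
      val (N ^ m) (blocks N m w) = val N w := by
    intro w hw
    have h1 : ∀ j, blocks N m w j ∈ heads N D m := fun j => head_mem_heads fun i _ => hw _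
    exact ⟨h1, val_blocks hN hm (fun i c => hL _ (hw i) c) fun i c => hL' _ (h1 i) c⟩
  ext x
  constructor
  · rintro ⟨w', hw', rfl⟩
    choose u hu1 hu2 using fun j => exists_word (hw' j)
    let w : ℕ → Fin n → ℤ := fun i => u (i / m) (i % m)
    have hw : ∀ i, w i ∈ D := fun i => hu1 _ _ (Nat.mod_lt _ (by omega))
    have h1 : blocks N m w = w' := by
      funext j
      unfold blocks
      rw [← hu2 j]
      refine head_congr N fun i hi => ?_
      change u ((i + j * m) / m) ((i + j * m) % m) = u j i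
      rw [Nat.add_mul_div_right _ _ (by omega), Nat.add_mul_mod_self_right, Nat.div_eq_of_lt hi,
        Nat.mod_eq_of_lt hi, zero_add]
    exact ⟨w, hw, by rw [← (key w hw).2, h1]⟩
  · rintro ⟨w, hw, rfl⟩
    exact ⟨_, (key w hw).1, (key w hw).2.symm⟩

/-- many heads which are far from one another -/
theorem exists_separated {n : ℕ} (H : Finset (Fin n → ℤ)) (q : ℕ) (hq : 1 ≤ q) :
    ∃ H' ⊆ H, H.card ≤ q ^ n * H'.card ∧
      ∀ a ∈ H', ∀ b ∈ H', a ≠ b → ∃ c, (q : ℤ) ≤ |a c - b c| := by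
  classical
  let T : Finset (Fin n → ℤ) := Fintype.piFinset fun _ => Ico (0 : ℤ) q
  have hT : T.card = q ^ n := by
    rw [Fintype.card_piFinset, Finset.prod_const, Finset.card_univ, Fintype.card_fin, Int.card_Ico]
    simp
  have hq0 : (0 : ℤ) < q := by exact_mod_cast hq
  let φ : (Fin n → ℤ) → (Fin n → ℤ) := fun a c => a c % q
  have hφ : ∀ a ∈ H, φ a ∈ T := by
    intro a _
    rw [Fintype.mem_piFinset]
    intro c
    rw [Finset.mem_Ico]
    exact ⟨Int.emod_nonneg _ hq0.ne', Int.emod_lt_of_pos _ hq0⟩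
  have hTne : T.Nonempty := by
    rw [← card_pos, hT]
    positivity
  obtain ⟨t, ht, hmax⟩ := exists_max_image T (fun t => (H.filter fun a => φ a = t).card) hTne
  refine ⟨H.filter fun a => φ a = t, filter_subset _ _, ?_, ?_⟩
  · rw [card_eq_sum_card_fiberwise hφ, ← hT, ← smul_eq_mul]
    exact sum_le_card_nsmul _ _ _ fun b hb => hmax b hb
  · intro a ha b hb hab
    rw [mem_filter] at ha hb
    obtain ⟨c, hc⟩ := Function.ne_iff.mp hab
    refine ⟨c, ?_⟩
    have h1 : a c % q = b c % q := by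
      have h2 : φ a = φ b := ha.2.trans hb.2.symm
      exact congrFun h2 c
    have h2 : (q : ℤ) ∣ a c - b c := Int.ModEq.dvd (show b c ≡ a c [ZMOD q] from h1.symm)
    exact Int.le_of_dvd (abs_pos.mpr (sub_ne_zero.mpr hc)) ((dvd_abs _ _).mpr h2)

end Pool.Agent.N326.AV
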