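import Mathlib

/-!
# Digit sets: self-similar sets given by a finite set of digit vectors in base `N`
-/

set_option autoImplicit false

open Filter Topology Finset

namespace Pool.Agent.N326.AV

/-- `ℝ^n` -/
abbrev E (n : ℕ) := EuclideanSpace ℝ (Fin n)

/-- The least number of sets of diameter at most `δ` covering `B` (for bounded `B`). -/
noncomputable def coverNum {n : ℕ} (B : Set (EuclideanSpace ℝ (Fin n))) (δ : ℝ) : ℕ :=
  sInf {N | ∃ U : Fin N → Set (EuclideanSpace ℝ (Fin n)),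
    (∀ i, ∀ x ∈ U i, ∀ y ∈ U i, dist x y ≤ δ) ∧ B ⊆ ⋃ i, U i}

theorem coverNum_le_card {n : ℕ} {B : Set (E n)} {δ : ℝ} {ι : Type} [Fintype ι]
    (U : ι → Set (E n)) (h1 : ∀ i, ∀ x ∈ U i, ∀ y ∈ U i, dist x y ≤ δ) (h2 : B ⊆ ⋃ i, U i) :
    coverNum B δ ≤ Fintype.card ι := by
  refine Nat.sInf_le ⟨fun i => U ((Fintype.equivFin ι).symm i), fun i => h1 _, ?_⟩
  intro x hx
  obtain ⟨i, hi⟩ := Set.mem_iUnion.mp (h2 hx)
  exact Set.mem_iUnion.mpr ⟨Fintype.equivFin ι i, by simpa using hi⟩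

theorem exists_cover {n : ℕ} {B : Set (E n)} (hB : Bornology.IsBounded B) {δ : ℝ} (hδ : 0 < δ) :
    ∃ U : Fin (coverNum B δ) → Set (E n),
      (∀ i, ∀ x ∈ U i, ∀ y ∈ U i, dist x y ≤ δ) ∧ B ⊆ ⋃ i, U i := by
  refine Nat.sInf_mem (s := {N | ∃ U : Fin N → Set (EuclideanSpace ℝ (Fin n)),
    (∀ i, ∀ x ∈ U i, ∀ y ∈ U i, dist x y ≤ δ) ∧ B ⊆ ⋃ i, U i}) ?_
  have h1 : TotallyBounded B := hB.isCompact_closure.totallyBounded.subset subset_closure
  obtain ⟨t, ht, hBt⟩ := Metric.totallyBounded_iff.mp h1 (δ / 2) (by linarith)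
  have : Fintype t := ht.fintype
  refine ⟨Fintype.card t, fun i => Metric.ball ((Fintype.equivFin t).symm i : E n) (δ / 2), ?_, ?_⟩
  · intro i x hx y hy
    have h2 := dist_triangle_right x y ((Fintype.equivFin t).symm i : E n)
    rw [Metric.mem_ball] at hx hy
    linarith
  · intro x hx
    obtain ⟨y, hy, hxy⟩ := Set.mem_iUnion₂.mp (hBt hx)
    exact Set.mem_iUnion.mpr ⟨Fintype.equivFin t ⟨y, hy⟩, by simpa using hxy⟩

theorem coverNum_anti {n : ℕ} {B : Set (E n)} (hB : Bornology.IsBounded B) {δ δ' : ℝ}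
    (hδ : 0 < δ) (h : δ ≤ δ') : coverNum B δ' ≤ coverNum B δ := by
  obtain ⟨U, h1, h2⟩ := exists_cover hB hδ
  exact Nat.sInf_le ⟨U, fun i x hx y hy => (h1 i x hx y hy).trans h, h2⟩

theorem coverNum_mono {n : ℕ} {A B : Set (E n)} (hB : Bornology.IsBounded B) (hAB : A ⊆ B) {δ : ℝ}
    (hδ : 0 < δ) : coverNum A δ ≤ coverNum B δ := by
  obtain ⟨U, h1, h2⟩ := exists_cover hB hδ
  exact Nat.sInf_le ⟨U, h1, hAB.trans h2⟩

/-! ### Values of digit sequences -/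

/-- the point with the digit vectors `w 0, w 1, …` in base `N` -/
noncomputable def val {n : ℕ} (N : ℕ) (w : ℕ → Fin n → ℤ) : E n :=
  WithLp.toLp 2 fun c => ∑' i, (w i c : ℝ) * ((N : ℝ) ^ (i + 1))⁻¹

theorem val_apply {n : ℕ} (N : ℕ) (w : ℕ → Fin n → ℤ) (c : Fin n) :
    val N w c = ∑' i, (w i c : ℝ) * ((N : ℝ) ^ (i + 1))⁻¹ := rfl

theorem geom_summable {N : ℕ} (hN : 2 ≤ N) : Summable fun i : ℕ => ((N : ℝ) ^ (i + 1))⁻¹ := by
  have hN' : (2 : ℝ) ≤ N := by exact_mod_cast hN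
  have h : Summable fun i : ℕ => ((N : ℝ)⁻¹) * ((N : ℝ)⁻¹) ^ i :=
    (summable_geometric_of_lt_one (by positivity) (inv_lt_one_of_one_lt₀ (by linarith))).mul_left _
  refine h.congr fun i => ?_
  rw [pow_succ, mul_inv, inv_pow]
  ring

theorem geom_tsum {N : ℕ} (hN : 2 ≤ N) : ∑' i : ℕ, ((N : ℝ) ^ (i + 1))⁻¹ ≤ 1 := by
  have hN' : (2 : ℝ) ≤ N := by exact_mod_cast hN
  have h : ∀ i : ℕ, ((N : ℝ) ^ (i + 1))⁻¹ = ((N : ℝ)⁻¹) * ((N : ℝ)⁻¹) ^ i := by
    intro i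
    rw [pow_succ, mul_inv, inv_pow]
    ring
  simp_rw [h]
  rw [tsum_mul_left, tsum_geometric_of_lt_one (by positivity)
    (inv_lt_one_of_one_lt₀ (by linarith))]
  rw [← mul_inv, mul_sub, mul_one, mul_inv_cancel₀ (by positivity)]
  exact inv_le_one_of_one_le₀ (by linarith)

theorem digit_summable {N : ℕ} (hN : 2 ≤ N) {a : ℕ → ℤ} {L : ℕ} (ha : ∀ i, |a i| ≤ L) :
    Summable fun i : ℕ => (a i : ℝ) * ((N : ℝ) ^ (i + 1))⁻¹ := by
  refine Summable.of_norm_bounded ((geom_summable hN).mul_left (L : ℝ)) fun i => ?_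
  rw [norm_mul, Real.norm_eq_abs, Real.norm_of_nonneg (by positivity)]
  refine mul_le_mul_of_nonneg_right ?_ (by positivity)
  have := ha i
  exact_mod_cast this

theorem digit_bound {N : ℕ} (hN : 2 ≤ N) {a : ℕ → ℤ} {L : ℕ} (ha : ∀ i, |a i| ≤ L) :
    |∑' i : ℕ, (a i : ℝ) * ((N : ℝ) ^ (i + 1))⁻¹| ≤ L := by
  have h1 : ‖∑' i : ℕ, (a i : ℝ) * ((N : ℝ) ^ (i + 1))⁻¹‖ ≤
      ∑' i : ℕ, (L : ℝ) * ((N : ℝ) ^ (i + 1))⁻¹ := by
    refine tsum_of_norm_bounded ((geom_summable hN).mul_left (L : ℝ)).hasSum fun i => ?_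
    rw [norm_mul, Real.norm_eq_abs, Real.norm_of_nonneg (by positivity)]
    refine mul_le_mul_of_nonneg_right ?_ (by positivity)
    have := ha i
    exact_mod_cast this
  rw [Real.norm_eq_abs] at h1
  refine h1.trans ?_
  rw [tsum_mul_left]
  calc (L : ℝ) * ∑' i : ℕ, ((N : ℝ) ^ (i + 1))⁻¹ ≤ L * 1 :=
        mul_le_mul_of_nonneg_left (geom_tsum hN) (by positivity)
    _ = L := mul_one _

/-- the integer vector given by the first `m` digit vectors -/
def head {n : ℕ} (N : ℕ) (w : ℕ → Fin n → ℤ) : ℕ → Fin n → ℤ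
  | 0 => 0
  | m + 1 => fun c => N * head N w m c + w m c

theorem head_congr {n : ℕ} (N : ℕ) {w w' : ℕ → Fin n → ℤ} : ∀ {m : ℕ}, (∀ i < m, w i = w' i) →
    head N w m = head N w' m
  | 0, _ => rfl
  | m + 1, h => by
    funext c
    simp only [head]
    rw [head_congr N (m := m) fun i hi => h i (by omega), h m (by omega)]

theorem head_eq {n : ℕ} {N : ℕ} (hN : 0 < N) (w : ℕ → Fin n → ℤ) (c : Fin n) : ∀ m : ℕ,
    ∑ i ∈ range m, (w i c : ℝ) * ((N : ℝ) ^ (i + 1))⁻¹ = ((N : ℝ) ^ m)⁻¹ * (head N w m c : ℝ)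
  | 0 => by simp [head]
  | m + 1 => by
    have h : (N : ℝ) ≠ 0 := by positivity
    rw [sum_range_succ, head_eq hN w c m]
    simp only [head]
    push_cast
    field_simp
    ring

/-- splitting off the first `m` digits -/
theorem val_split {n : ℕ} {N : ℕ} (hN : 2 ≤ N) {w : ℕ → Fin n → ℤ} {L : ℕ}
    (hw : ∀ i c, |w i c| ≤ L) (m : ℕ) (c : Fin n) :
    val N w c = ((N : ℝ) ^ m)⁻¹ * ((head N w m c : ℝ) + val N (fun i => w (i + m)) c) := by
  rw [val_apply, val_apply, ← (digit_summable hN (a := fun i => w i c)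
    (fun i => hw i c)).sum_add_tsum_nat_add m, head_eq (by omega) w c m, mul_add]
  congr 1
  rw [← tsum_mul_left]
  congr 1
  funext i
  rw [show i + m + 1 = m + (i + 1) by ring, pow_add, mul_inv]
  ring

theorem val_bound {n : ℕ} {N : ℕ} (hN : 2 ≤ N) {w : ℕ → Fin n → ℤ} {L : ℕ}
    (hw : ∀ i c, |w i c| ≤ L) (c : Fin n) : |val N w c| ≤ L :=
  digit_bound hN (a := fun i => w i c) fun i => hw i c

theorem dist_le_of_coord {n : ℕ} {x y : E n} {t : ℝ} (ht : 0 ≤ t) (h : ∀ c, |x c - y c| ≤ t) :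
    dist x y ≤ n * t := by
  rw [EuclideanSpace.dist_eq]
  refine Real.sqrt_le_iff.mpr ⟨by positivity, ?_⟩
  calc ∑ c, dist (x c) (y c) ^ 2 ≤ ∑ _c : Fin n, t ^ 2 := by
        refine Finset.sum_le_sum fun c _ => ?_
        rw [Real.dist_eq]
        exact pow_le_pow_left₀ (abs_nonneg _) (h c) 2
    _ = n * t ^ 2 := by
        rw [Finset.sum_const, Finset.card_univ, Fintype.card_fin, nsmul_eq_mul]
    _ ≤ (n * t) ^ 2 := by
        rw [mul_pow]
        refine mul_le_mul_of_nonneg_right ?_ (sq_nonneg _)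
        rcases Nat.eq_zero_or_pos n with h0 | h0
        · simp [h0]
        · have : (1 : ℝ) ≤ n := by exact_mod_cast h0
          nlinarith

theorem coord_le_dist {n : ℕ} (x y : E n) (c : Fin n) : |x c - y c| ≤ dist x y := by
  rw [EuclideanSpace.dist_eq, ← Real.dist_eq]
  refine Real.le_sqrt_of_sq_le ?_
  exact Finset.single_le_sum (f := fun c => dist (x c) (y c) ^ 2) (fun _ _ => sq_nonneg _)
    (Finset.mem_univ c)

/-- the self-similar set of all points with digit vectors in `D` -/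
def digitSet {n : ℕ} (N : ℕ) (D : Finset (Fin n → ℤ)) : Set (E n) :=
  {x | ∃ w : ℕ → Fin n → ℤ, (∀ i, w i ∈ D) ∧ x = val N w}

theorem exists_bound {n : ℕ} (D : Finset (Fin n → ℤ)) : ∃ L : ℕ, ∀ d ∈ D, ∀ c, |d c| ≤ (L : ℤ) := by
  refine ⟨∑ d ∈ D, ∑ c, (d c).natAbs, fun d hd c => ?_⟩
  have h1 : (d c).natAbs ≤ ∑ c, (d c).natAbs :=
    Finset.single_le_sum (f := fun c => (d c).natAbs) (fun _ _ => Nat.zero_le _) (Finset.mem_univ c)
  have h2 : ∑ c, (d c).natAbs ≤ ∑ d ∈ D, ∑ c, (d c).natAbs :=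
    Finset.single_le_sum (f := fun d : Fin n → ℤ => ∑ c, (d c).natAbs)
      (fun _ _ => Nat.zero_le _) hd
  have h3 : (d c).natAbs ≤ ∑ d ∈ D, ∑ c, (d c).natAbs := h1.trans h2
  rw [Int.abs_eq_natAbs]
  exact_mod_cast h3

theorem coord_dist {n : ℕ} {N : ℕ} (hN : 2 ≤ N) {w w' : ℕ → Fin n → ℤ} {L : ℕ}
    (hw : ∀ i c, |w i c| ≤ L) (hw' : ∀ i c, |w' i c| ≤ L) (m l : ℕ)
    (h1 : head N w m = head N w' m) (h2 : ∀ i < l, w (i + m) = w' (i + m)) (c : Fin n) :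
    |val N w c - val N w' c| ≤ 2 * L * ((N : ℝ) ^ (m + l))⁻¹ := by
  have hh : head N (fun i => w (i + m)) l = head N (fun i => w' (i + m)) l :=
    head_congr N fun i hi => h2 i hi
  rw [val_split hN hw m, val_split hN hw' m, h1,
    val_split hN (w := fun i => w (i + m)) (fun i c => hw _ c) l,
    val_split hN (w := fun i => w' (i + m)) (fun i c => hw' _ c) l, hh]
  have h3 := val_bound hN (w := fun i => w (i + l + m)) (fun i c => hw _ c) c
  have h4 := val_bound hN (w := fun i => w' (i + l + m)) (fun i c => hw' _ c) c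
  have h5 : ((N : ℝ) ^ m)⁻¹ * ((head N w' m c : ℝ) + ((N : ℝ) ^ l)⁻¹ *
      ((head N (fun i => w' (i + m)) l c : ℝ) + val N (fun i => w (i + l + m)) c)) -
      ((N : ℝ) ^ m)⁻¹ * ((head N w' m c : ℝ) + ((N : ℝ) ^ l)⁻¹ *
      ((head N (fun i => w' (i + m)) l c : ℝ) + val N (fun i => w' (i + l + m)) c)) =
      ((N : ℝ) ^ (m + l))⁻¹ * (val N (fun i => w (i + l + m)) c -
        val N (fun i => w' (i + l + m)) c) := by
    rw [pow_add, mul_inv]
    ring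
  rw [h5, abs_mul, abs_of_nonneg (by positivity : (0 : ℝ) ≤ ((N : ℝ) ^ (m + l))⁻¹), mul_comm]
  refine mul_le_mul_of_nonneg_right ?_ (by positivity)
  calc |val N (fun i => w (i + l + m)) c - val N (fun i => w' (i + l + m)) c|
      ≤ |val N (fun i => w (i + l + m)) c| + |val N (fun i => w' (i + l + m)) c| := abs_sub _ _
    _ ≤ 2 * L := by linarith

end Pool.Agent.N326.AV
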