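import Pool.Agent.N326.AV.Prog

/-!
# Minkowski and Assouad dimensions of sets with progressions
-/

set_option autoImplicit false

open Filter Topology Finset

namespace Pool.Agent.N326.AV

/-- Upper Minkowski dimension. -/
noncomputable def upperMinkowski {n : ℕ} (B : Set (EuclideanSpace ℝ (Fin n))) : EReal :=
  limsup (fun δ : ℝ => ((Real.log (coverNum B δ) / Real.log (1 / δ) : ℝ) : EReal)) (𝓝[>] 0)

/-- Lower Minkowski dimension. -/
noncomputable def lowerMinkowski {n : ℕ} (B : Set (EuclideanSpace ℝ (Fin n))) : EReal :=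
  liminf (fun δ : ℝ => ((Real.log (coverNum B δ) / Real.log (1 / δ) : ℝ) : EReal)) (𝓝[>] 0)

/-- Assouad dimension. -/
noncomputable def assouadDim {n : ℕ} (B : Set (EuclideanSpace ℝ (Fin n))) : EReal :=
  ⨅ (s : ℝ) (_ : 0 ≤ s ∧ AssouadLE B s), (s : EReal)

theorem lower_le_upper {n : ℕ} (B : Set (E n)) : lowerMinkowski B ≤ upperMinkowski B :=
  liminf_le_limsup (by isBoundedDefault) (by isBoundedDefault)

theorem eventually_small : ∀ᶠ δ : ℝ in 𝓝[>] (0 : ℝ), 0 < δ ∧ δ < 1 := Ioo_mem_nhdsGT one_pos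

theorem eventually_log (A : ℝ) : ∀ᶠ δ : ℝ in 𝓝[>] (0 : ℝ), A < Real.log (1 / δ) := by
  have hlog : Tendsto Real.log (𝓝[>] 0) atBot := Real.tendsto_log_nhdsGT_zero
  filter_upwards [hlog.eventually (eventually_lt_atBot (-A))] with δ h
  rw [one_div, Real.log_inv]
  linarith

/-- the upper Minkowski dimension is at most every Assouad exponent -/
theorem upper_le_of_assouad {n : ℕ} {B : Set (E n)} (hB : Bornology.IsBounded B) {s : ℝ}
    (hs : 0 ≤ s) (h : AssouadLE B s) : upperMinkowski B ≤ (s : EReal) := by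
  obtain ⟨C, hC⟩ := h
  obtain ⟨R₀, hR₀⟩ := hB.subset_closedBall (0 : E n)
  set R : ℝ := max R₀ 1 with hR
  have hR1 : 1 ≤ R := le_max_right _ _
  have hBR : B ⊆ Metric.closedBall 0 R := hR₀.trans (Metric.closedBall_subset_closedBall (le_max_left _ _))
  have hBR' : B ∩ Metric.closedBall 0 R = B := Set.inter_eq_left.mpr hBR
  set C' : ℝ := max C 1 * R ^ s with hC'
  have hC1 : 1 ≤ C' := by
    have h1 : 1 ≤ R ^ s := Real.one_le_rpow hR1 hs
    have h2 : 1 ≤ max C 1 := le_max_right _ _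
    nlinarith
  refine le_of_forall_gt fun y hy => ?_
  obtain ⟨z, hz1, hz2⟩ := EReal.lt_iff_exists_real_btwn.mp hy
  have hz : s < z := by exact_mod_cast hz1
  refine lt_of_le_of_lt ?_ hz2
  refine limsup_le_of_le (by isBoundedDefault) ?_
  filter_upwards [eventually_small, eventually_log (Real.log C' / (z - s))] with δ h1 h2
  have h3 := hC 0 δ R h1.1 (h1.2.le.trans hR1)
  rw [hBR'] at h3
  have hlog : 0 < Real.log (1 / δ) := Real.log_pos (by rw [lt_div_iff₀ h1.1]; linarith [h1.2])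
  rw [EReal.coe_le_coe_iff, div_le_iff₀ hlog]
  rw [div_lt_iff₀ (by linarith)] at h2
  have hδ1 : 0 < 1 / δ := by
    have := h1.1
    positivity
  have h4 : (coverNum B δ : ℝ) ≤ C' * (1 / δ) ^ s := by
    refine h3.trans ?_
    have h5 : (R / δ) ^ s = R ^ s * (1 / δ) ^ s := by
      rw [← Real.mul_rpow (by linarith) hδ1.le]
      congr 1
      ring
    rw [h5, hC', mul_assoc]
    exact mul_le_mul_of_nonneg_right (le_max_left _ _) (by positivity)
  rcases Nat.eq_zero_or_pos (coverNum B δ) with h5 | h5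
  · rw [h5, Nat.cast_zero, Real.log_zero]
    have : 0 ≤ z := by linarith
    positivity
  · have h6 := Real.log_le_log (by exact_mod_cast h5) h4
    rw [Real.log_mul (by linarith) (Real.rpow_pos_of_pos hδ1 s).ne', Real.log_rpow hδ1] at h6
    nlinarith

theorem upper_le_assouad {n : ℕ} {B : Set (E n)} (hB : Bornology.IsBounded B) :
    upperMinkowski B ≤ assouadDim B := by
  unfold assouadDim
  exact le_iInf fun s => le_iInf fun hs => upper_le_of_assouad hB hs.1 hs.2

/-- a real number above the lower Minkowski dimension gives a scale -/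
theorem exists_scale {n : ℕ} {B : Set (E n)} (hB : Bornology.IsBounded B) {s : ℝ}
    (h : lowerMinkowski B < (s : EReal)) (K : ℝ) :
    ∃ N : ℕ, 2 ≤ N ∧ K * (coverNum B (N : ℝ)⁻¹ : ℝ) ≤ (N : ℝ) ^ s := by
  obtain ⟨t, ht1, ht2⟩ := EReal.lt_iff_exists_real_btwn.mp h
  have hts : t < s := by exact_mod_cast ht2
  have h0 : (0 : EReal) ≤ lowerMinkowski B := by
    refine le_liminf_of_le (by isBoundedDefault) ?_
    filter_upwards [eventually_small] with δ hδ
    refine EReal.coe_nonneg.mpr (div_nonneg (Real.log_natCast_nonneg _) ?_)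
    exact (Real.log_pos (by rw [lt_div_iff₀ hδ.1]; linarith [hδ.2])).le
  have ht : 0 < t := by
    have := lt_of_le_of_lt h0 ht1
    exact_mod_cast this
  have h1 : ∃ᶠ δ : ℝ in 𝓝[>] (0 : ℝ),
      ((Real.log (coverNum B δ) / Real.log (1 / δ) : ℝ) : EReal) < t :=
    frequently_lt_of_liminf_lt (by isBoundedDefault) ht1
  -- large scales
  have h2 : ∀ᶠ N : ℕ in atTop, |K| * 2 ^ t ≤ (N : ℝ) ^ (s - t) :=
    ((tendsto_rpow_atTop (by linarith)).comp tendsto_natCast_atTop_atTop).eventually_ge_atTop _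
  obtain ⟨N₀, hN₀⟩ := eventually_atTop.mp h2
  have h3 : ∀ᶠ δ : ℝ in 𝓝[>] (0 : ℝ), ((N₀ + 2 : ℕ) : ℝ) < 1 / δ := by
    have h4 : 0 < (1 / ((N₀ + 2 : ℕ) : ℝ)) := by positivity
    filter_upwards [Ioo_mem_nhdsGT h4] with δ hδ
    rw [lt_div_iff₀ hδ.1]
    have := hδ.2
    rw [lt_div_iff₀ (by positivity)] at this
    linarith
  obtain ⟨δ, h4, h5, h6⟩ := (h1.and_eventually (h3.and eventually_small)).exists
  have hδ := h6.1
  set N : ℕ := ⌊1 / δ⌋₊ with hN
  have hN1 : N₀ + 2 ≤ N := Nat.le_floor h5.le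
  have hN2 : (N : ℝ) ≤ 1 / δ := Nat.floor_le (by positivity)
  have hN3 : 1 / δ < N + 1 := Nat.lt_floor_add_one _
  have hN0 : (2 : ℝ) ≤ N := by
    have : 2 ≤ N := by omega
    exact_mod_cast this
  refine ⟨N, by omega, ?_⟩
  have h7 : δ ≤ (N : ℝ)⁻¹ := by
    rw [le_inv_comm₀ hδ (by linarith)]
    rwa [one_div] at hN2
  have h8 := coverNum_anti hB hδ h7
  have h9 : (coverNum B δ : ℝ) ≤ (2 * N) ^ t := by
    have h10 : Real.log (coverNum B δ) / Real.log (1 / δ) < t := by exact_mod_cast h4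
    have hlog : 0 < Real.log (1 / δ) := Real.log_pos (by rw [lt_div_iff₀ hδ]; linarith [h6.2])
    rw [div_lt_iff₀ hlog] at h10
    rcases Nat.eq_zero_or_pos (coverNum B δ) with h11 | h11
    · rw [h11, Nat.cast_zero]
      positivity
    · have h12 : (0 : ℝ) < coverNum B δ := by exact_mod_cast h11
      rw [← Real.log_le_log_iff h12 (by positivity), Real.log_rpow (by positivity)]
      refine h10.le.trans ?_
      refine mul_le_mul_of_nonneg_left ?_ ht.le
      exact Real.log_le_log (by positivity) (by linarith)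
  have h10 := hN₀ N (by omega)
  calc K * (coverNum B (N : ℝ)⁻¹ : ℝ) ≤ |K| * (coverNum B δ : ℝ) := by
        refine mul_le_mul (le_abs_self _) (by exact_mod_cast h8) (by positivity) (abs_nonneg _)
    _ ≤ |K| * (2 * N) ^ t := mul_le_mul_of_nonneg_left h9 (abs_nonneg _)
    _ = (|K| * 2 ^ t) * (N : ℝ) ^ t := by
        rw [Real.mul_rpow (by norm_num) (by linarith)]
        ring
    _ ≤ (N : ℝ) ^ (s - t) * (N : ℝ) ^ t := mul_le_mul_of_nonneg_right h10 (by positivity)
    _ = (N : ℝ) ^ s := by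
        rw [← Real.rpow_add (by linarith)]
        congr 1
        ring

/-- every `s` above the lower Minkowski dimension of a bounded set with progressions is attained by
a digit set -/
theorem exists_digits_of_lower {n k : ℕ} (hk : 1 ≤ k) {B : Set (E n)} (hB : Bornology.IsBounded B)
    (hP : HasProgressions k B) {s : ℝ} (h : lowerMinkowski B < (s : EReal)) :
    ∃ (N : ℕ) (D : Finset (Fin n → ℤ)) (A : (Fin n → ℤ) → Fin n → ℤ), 2 ≤ N ∧ Digits k N A D ∧
      D.Nonempty ∧ Real.log D.card / Real.log N ≤ s := by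
  obtain ⟨N, hN, h1⟩ := exists_scale hB h (3 ^ n)
  obtain ⟨D, A, hD, hcard⟩ := exists_digitSet hB hP (N := N) (by omega)
  have hne : D.Nonempty := ⟨_, hD 0 (fun c => ⟨le_rfl, by simp; omega⟩) 0 (by omega)⟩
  have hN' : (2 : ℝ) ≤ N := by exact_mod_cast hN
  refine ⟨N, D, A, hN, hD, hne, ?_⟩
  have hlogN : 0 < Real.log N := Real.log_pos (by linarith)
  rw [div_le_iff₀ hlogN, ← Real.log_rpow (by linarith)]
  refine Real.log_le_log (by exact_mod_cast hne.card_pos) (le_trans ?_ h1)
  exact_mod_cast hcard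

/-- the infimum of the upper Minkowski dimensions -/
noncomputable def fM (n k : ℕ) : EReal :=
  ⨅ (B : Set (EuclideanSpace ℝ (Fin n))) (_ : Bornology.IsBounded B) (_ : HasProgressions k B),
    upperMinkowski B

/-- the infimum of the lower Minkowski dimensions -/
noncomputable def fL (n k : ℕ) : EReal :=
  ⨅ (B : Set (EuclideanSpace ℝ (Fin n))) (_ : Bornology.IsBounded B) (_ : HasProgressions k B),
    lowerMinkowski B

/-- the infimum of the Assouad dimensions -/
noncomputable def fA (n k : ℕ) : EReal :=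
  ⨅ (B : Set (EuclideanSpace ℝ (Fin n))) (_ : Bornology.IsBounded B) (_ : HasProgressions k B),
    assouadDim B

/-- the infimum of the exponents of the finite sets `D` -/
noncomputable def fD (n k : ℕ) : EReal :=
  ⨅ (N : ℕ) (D : Finset (Fin n → ℤ)) (_ : 2 ≤ N ∧ ∃ A : (Fin n → ℤ) → Fin n → ℤ, Digits k N A D),
    ((Real.log D.card / Real.log N : ℝ) : EReal)

theorem fL_le_fM (n k : ℕ) : fL n k ≤ fM n k :=
  iInf_mono fun B => iInf_mono fun _ => iInf_mono fun _ => lower_le_upper B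

theorem fM_le_fA (n k : ℕ) : fM n k ≤ fA n k :=
  iInf_mono fun _ => iInf_mono fun hB => iInf_mono fun _ => upper_le_assouad hB

theorem fA_le_fD (n k : ℕ) (hk : 1 ≤ k) : fA n k ≤ fD n k := by
  unfold fD
  refine le_iInf fun N => le_iInf fun D => le_iInf fun h => ?_
  obtain ⟨hN, A, hD⟩ := h
  have hne : D.Nonempty := ⟨_, hD 0 (fun c => ⟨le_rfl, by simp; omega⟩) 0 (by omega)⟩
  have hN' : (2 : ℝ) ≤ N := by exact_mod_cast hN
  have hs0 : 0 ≤ Real.log D.card / Real.log N := by
    refine div_nonneg (Real.log_natCast_nonneg _) (Real.log_nonneg (by linarith))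
  refine (iInf_le _ (digitSet N D)).trans ?_
  refine (iInf_le _ (digitSet_isCompact hN D).isBounded).trans ?_
  refine (iInf_le _ (digitSet_hasProgressions hN hk hD)).trans ?_
  unfold assouadDim
  exact (iInf_le _ _).trans (iInf_le _ ⟨hs0, assouad_digitSet hN hne⟩)

theorem fD_le_fL (n k : ℕ) (hk : 1 ≤ k) : fD n k ≤ fL n k := by
  unfold fL
  refine le_iInf fun B => le_iInf fun hB => le_iInf fun hP => ?_
  refine le_of_forall_gt fun y hy => ?_
  obtain ⟨s, hs1, hs2⟩ := EReal.lt_iff_exists_real_btwn.mp hy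
  obtain ⟨N, D, A, hN, hD, -, h⟩ := exists_digits_of_lower hk hB hP hs1
  refine lt_of_le_of_lt ?_ hs2
  unfold fD
  refine (iInf_le _ N).trans ((iInf_le _ D).trans ((iInf_le _ ⟨hN, A, hD⟩).trans ?_))
  exact_mod_cast h

theorem all_eq (n k : ℕ) (hk : 1 ≤ k) : fA n k = fM n k ∧ fL n k = fM n k ∧ fD n k = fM n k := by
  have h1 := fL_le_fM n k
  have h2 := fM_le_fA n k
  have h3 := fA_le_fD n k hk
  have h4 := fD_le_fL n k hk
  refine ⟨le_antisymm (h3.trans (h4.trans h1)) h2, le_antisymm h1 (h2.trans (h3.trans h4)),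
    le_antisymm (h4.trans h1) (h2.trans h3)⟩

end Pool.Agent.N326.AV
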