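import Pool.Agent.N326.AV.Haus

/-!
# All dimensions of digit sets coincide; the reformulations of the conjecture
-/

set_option autoImplicit false

open Filter Topology Finset
open scoped NNReal ENNReal

namespace Pool.Agent.N326.AV

theorem coe_ennreal_eq_toReal {x : ℝ≥0∞} (h : x ≠ ⊤) : ((x : ℝ≥0∞) : EReal) = ((x.toReal : ℝ) : EReal) := by
  lift x to ℝ≥0 using h
  rfl

theorem dimH_real {n : ℕ} (B : Set (E n)) : ((dimH B : ℝ≥0∞) : EReal) = (((dimH B).toReal : ℝ) : EReal) :=
  coe_ennreal_eq_toReal (Real.dimH_ne_top B)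

theorem dimH_le_lower {n : ℕ} {B : Set (E n)} (hB : Bornology.IsBounded B) :
    ((dimH B : ℝ≥0∞) : EReal) ≤ lowerMinkowski B := by
  refine le_of_forall_gt fun y hy => ?_
  obtain ⟨s, hs1, hs2⟩ := EReal.lt_iff_exists_real_btwn.mp hy
  refine lt_of_le_of_lt ?_ hs2
  have h1 := dimH_le_of_lower hB hs1
  have h0 : 0 ≤ s := by
    by_contra hneg
    push Not at hneg
    have h2 : (0 : EReal) ≤ lowerMinkowski B := by
      refine le_liminf_of_le (by isBoundedDefault) ?_
      filter_upwards [eventually_small] with δ hδ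
      refine EReal.coe_nonneg.mpr (div_nonneg (Real.log_natCast_nonneg _) ?_)
      exact (Real.log_pos (by rw [lt_div_iff₀ hδ.1]; linarith [hδ.2])).le
    have h3 := lt_of_le_of_lt h2 hs1
    have : (0 : ℝ) < s := by exact_mod_cast h3
    linarith
  rw [dimH_real, EReal.coe_le_coe_iff]
  exact ENNReal.toReal_le_of_le_ofReal h0 h1

theorem assouad_le_dimH {n : ℕ} {N : ℕ} (hN : 2 ≤ N) {D : Finset (Fin n → ℤ)} (hD : D.Nonempty) :
    assouadDim (digitSet N D) ≤ ((dimH (digitSet N D) : ℝ≥0∞) : EReal) := by
  classical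
  obtain ⟨L, hL⟩ := exists_bound D
  have hN' : (2 : ℝ) ≤ N := by exact_mod_cast hN
  have hlogN : 0 < Real.log N := Real.log_pos (by linarith)
  have hval : ∀ x ∈ digitSet N D, ∀ c, |x c| ≤ (L : ℝ) := by
    rintro x ⟨w, hw, rfl⟩ c
    exact val_bound hN (fun i c => hL _ (hw i) c) c
  rw [dimH_real]
  set d : ℝ := (dimH (digitSet N D)).toReal with hd
  set q : ℕ := 2 * L + 1 with hq
  have key : ∀ m : ℕ, 1 ≤ m → assouadDim (digitSet N D) ≤
      ((d + n * Real.log q / (m * Real.log N) : ℝ) : EReal) := by
    intro m hm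
    have hNm : 2 ≤ N ^ m := hN.trans (Nat.le_self_pow (by omega) N)
    have hm0 : (0 : ℝ) < m := by exact_mod_cast hm
    have hlogNm : Real.log ((N ^ m : ℕ) : ℝ) = m * Real.log N := by
      push_cast
      rw [Real.log_pow]
    obtain ⟨H, hH, hcard, hsep⟩ := exists_separated (heads N D m) q (by omega)
    have hheads := heads_nonempty (N := N) hD m
    have hHne : 1 ≤ H.card := by
      rcases Nat.eq_zero_or_pos H.card with h0 | h0
      · rw [h0, mul_zero] at hcard
        have := hheads.card_pos
        omega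
      · exact h0
    have hsub : digitSet (N ^ m) H ⊆ digitSet N D := by
      rw [← digitSet_blocks hN hm D]
      rintro x ⟨w, hw, rfl⟩
      exact ⟨w, fun i => hH (hw i), rfl⟩
    have h1 : Real.log H.card / (m * Real.log N) ≤ d := by
      rcases Nat.lt_or_ge H.card 2 with h2 | h2
      · have h3 : H.card = 1 := by omega
        rw [h3, Nat.cast_one, Real.log_one, zero_div]
        exact ENNReal.toReal_nonneg
      · have h3 := dimH_lower hNm (L := L) (fun x hx => hval x (hsub hx)) hsep h2
        rw [hlogNm] at h3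
        have h4 := h3.trans (dimH_mono hsub)
        rw [hd]
        exact (ENNReal.ofReal_le_iff_le_toReal (Real.dimH_ne_top _)).mp h4
    have h2 : AssouadLE (digitSet N D) (Real.log (heads N D m).card / (m * Real.log N)) := by
      have h3 := assouad_digitSet hNm hheads
      rw [digitSet_blocks hN hm D, hlogNm] at h3
      exact h3
    have h3 : 0 ≤ Real.log (heads N D m).card / (m * Real.log N) :=
      div_nonneg (Real.log_natCast_nonneg _) (by positivity)
    have h4 : assouadDim (digitSet N D) ≤
        ((Real.log (heads N D m).card / (m * Real.log N) : ℝ) : EReal) := by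
      unfold assouadDim
      exact (iInf_le _ _).trans (iInf_le _ ⟨h3, h2⟩)
    refine h4.trans ?_
    rw [EReal.coe_le_coe_iff]
    have h5 : Real.log (heads N D m).card ≤ n * Real.log q + Real.log H.card := by
      have h6 : ((heads N D m).card : ℝ) ≤ (q : ℝ) ^ n * H.card := by exact_mod_cast hcard
      have h7 : (0 : ℝ) < (heads N D m).card := by exact_mod_cast hheads.card_pos
      have h8 : (0 : ℝ) < H.card := by exact_mod_cast hHne
      have h9 : (0 : ℝ) < q := by
        rw [hq]
        positivity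
      have h10 := Real.log_le_log h7 h6
      rwa [Real.log_mul (by positivity) h8.ne', Real.log_pow] at h10
    calc Real.log (heads N D m).card / (m * Real.log N)
        ≤ (n * Real.log q + Real.log H.card) / (m * Real.log N) :=
          div_le_div_of_nonneg_right h5 (by positivity)
      _ = Real.log H.card / (m * Real.log N) + n * Real.log q / (m * Real.log N) := by ring
      _ ≤ d + n * Real.log q / (m * Real.log N) := by linarith
  have h1 : Tendsto (fun m : ℕ => ((d + n * Real.log q / (m * Real.log N) : ℝ) : EReal)) atTop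
      (𝓝 ((d : ℝ) : EReal)) := by
    refine (continuous_coe_real_ereal.tendsto d).comp ?_
    have h2 : Tendsto (fun m : ℕ => (n * Real.log q / Real.log N) * (1 / (m : ℝ))) atTop (𝓝 0) := by
      have := tendsto_one_div_atTop_nhds_zero_nat (𝕜 := ℝ).const_mul (n * Real.log q / Real.log N)
      rwa [mul_zero] at this
    have h3 : Tendsto (fun m : ℕ => d + (n * Real.log q / Real.log N) * (1 / (m : ℝ))) atTop
        (𝓝 (d + 0)) := tendsto_const_nhds.add h2
    rw [add_zero] at h3
    refine h3.congr fun m => ?_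
    rw [div_mul_div_comm, mul_one, mul_comm (Real.log N)]
  refine ge_of_tendsto h1 ?_
  filter_upwards [eventually_ge_atTop 1] with m hm
  exact key m hm

/-- all dimensions of a digit set coincide -/
theorem dims_eq {n : ℕ} {N : ℕ} (hN : 2 ≤ N) {D : Finset (Fin n → ℤ)} (hD : D.Nonempty) :
    assouadDim (digitSet N D) = ((dimH (digitSet N D) : ℝ≥0∞) : EReal) ∧
      upperMinkowski (digitSet N D) = ((dimH (digitSet N D) : ℝ≥0∞) : EReal) ∧
      lowerMinkowski (digitSet N D) = ((dimH (digitSet N D) : ℝ≥0∞) : EReal) := by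
  have hB := (digitSet_isCompact hN D).isBounded
  have h1 := dimH_le_lower hB
  have h2 := lower_le_upper (digitSet N D)
  have h3 := upper_le_assouad hB
  have h4 := assouad_le_dimH hN hD
  exact ⟨le_antisymm h4 (h1.trans (h2.trans h3)), le_antisymm (h3.trans h4) (h1.trans h2),
    le_antisymm (h2.trans (h3.trans h4)) h1⟩

theorem fM_le (n k : ℕ) (hk : 1 ≤ k) : fM n k ≤ (n : EReal) := by
  classical
  rw [← (all_eq n k hk).2.2]
  have hk0 : (0 : ℝ) < k := by exact_mod_cast hk
  have key : ∀ N : ℕ, 2 ≤ N → fD n k ≤ (((n : ℝ) + n * Real.log k / Real.log N : ℝ) : EReal) := by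
    intro N hN
    have hN' : (2 : ℝ) ≤ N := by exact_mod_cast hN
    have hlogN : 0 < Real.log N := Real.log_pos (by linarith)
    let D : Finset (Fin n → ℤ) := Fintype.piFinset fun _ => Ico (0 : ℤ) ((k * N : ℕ) : ℤ)
    have hD : Digits k N (fun _ => 0) D := by
      intro v hv j hj
      rw [Fintype.mem_piFinset]
      intro c
      rw [Finset.mem_Ico]
      have h1 := hv c
      simp only [Pi.add_apply, Pi.zero_apply, zero_add, Pi.smul_apply, smul_eq_mul]
      have h2 : (j : ℤ) < k := by exact_mod_cast hj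
      have h3 : (0 : ℤ) ≤ j := by positivity
      constructor
      · nlinarith
      · push_cast
        nlinarith
    have hcard : D.card = (k * N) ^ n := by
      rw [Fintype.card_piFinset, Finset.prod_const, Finset.card_univ, Fintype.card_fin,
        Int.card_Ico, sub_zero, Int.toNat_natCast]
    unfold fD
    refine (iInf_le _ N).trans ((iInf_le _ D).trans ((iInf_le _ ⟨hN, _, hD⟩).trans ?_))
    rw [EReal.coe_le_coe_iff, hcard]
    push_cast
    rw [Real.log_pow, Real.log_mul hk0.ne' (by linarith)]
    refine le_of_eq ?_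
    field_simp
    ring
  have h1 : Tendsto (fun N : ℕ => (((n : ℝ) + n * Real.log k / Real.log N : ℝ) : EReal)) atTop
      (𝓝 (((n : ℝ) : ℝ) : EReal)) := by
    refine (continuous_coe_real_ereal.tendsto (n : ℝ)).comp ?_
    have h2 : Tendsto (fun N : ℕ => (n : ℝ) * Real.log k / Real.log N) atTop (𝓝 0) :=
      (Real.tendsto_log_atTop.comp tendsto_natCast_atTop_atTop).const_div_atTop _
    have h3 := (tendsto_const_nhds (x := (n : ℝ))).add h2
    rwa [add_zero] at h3
  have h2 : fD n k ≤ (((n : ℝ) : ℝ) : EReal) := by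
    refine ge_of_tendsto h1 ?_
    filter_upwards [eventually_ge_atTop 2] with N hN
    exact key N hN
  exact_mod_cast h2

/-- the reformulation of the conjecture in dimension `n` -/
theorem tendsto_iff (n : ℕ) :
    Tendsto (fun k => fM n k) atTop (𝓝 (n : EReal)) ↔
      ∀ ε : ℝ, 0 < ε → ∃ k : ℕ, ∀ (N : ℕ) (A : (Fin n → ℤ) → Fin n → ℤ) (D : Finset (Fin n → ℤ)),
        2 ≤ N → Digits k N A D → (((n : ℝ) - ε : ℝ) : EReal) ≤ ((dimH (digitSet N D) : ℝ≥0∞) : EReal) := by
  have hnn : (n : EReal) = (((n : ℝ) : ℝ) : EReal) := by norm_cast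
  constructor
  · intro h ε hε
    have h1 : (((n : ℝ) - ε : ℝ) : EReal) < (n : EReal) := by
      rw [hnn, EReal.coe_lt_coe_iff]
      linarith
    obtain ⟨k, hk1, hk2⟩ := ((h.eventually (lt_mem_nhds h1)).and (eventually_ge_atTop 1)).exists
    refine ⟨k, fun N A D hN hD => ?_⟩
    have hne : D.Nonempty := ⟨_, hD 0 (fun c => ⟨le_rfl, by simp; omega⟩) 0 (by omega)⟩
    rw [← (dims_eq hN hne).2.1]
    refine hk1.le.trans ?_
    unfold fM
    exact (iInf_le _ (digitSet N D)).trans ((iInf_le _ (digitSet_isCompact hN D).isBounded).trans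
      (iInf_le _ (digitSet_hasProgressions hN hk2 hD)))
  · intro h
    refine tendsto_order.mpr ⟨fun a ha => ?_, fun a ha => ?_⟩
    · obtain ⟨b, hb1, hb2⟩ := EReal.lt_iff_exists_real_btwn.mp ha
      have hb : b < n := by
        rw [hnn] at hb2
        exact_mod_cast hb2
      obtain ⟨k₀, hk₀⟩ := h (n - b) (by linarith)
      filter_upwards [eventually_ge_atTop (max k₀ 1)] with k hk
      have hk0 : k₀ ≤ k := (le_max_left _ _).trans hk
      have hk1 : 1 ≤ k := (le_max_right _ _).trans hk
      refine lt_of_lt_of_le hb1 ?_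
      rw [← (all_eq n k hk1).2.2]
      unfold fD
      refine le_iInf fun N => le_iInf fun D => le_iInf fun hND => ?_
      obtain ⟨hN, A, hD⟩ := hND
      have hne : D.Nonempty := ⟨_, hD 0 (fun c => ⟨le_rfl, by simp; omega⟩) 0 (by omega)⟩
      have h1 := hk₀ N A D hN (fun v hv j hj => hD v hv j (by omega))
      rw [sub_sub_cancel] at h1
      refine h1.trans ?_
      rw [← (dims_eq hN hne).1]
      have hN' : (2 : ℝ) ≤ N := by exact_mod_cast hN
      have hs0 : 0 ≤ Real.log D.card / Real.log N :=
        div_nonneg (Real.log_natCast_nonneg _) (Real.log_nonneg (by linarith))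
      unfold assouadDim
      exact (iInf_le _ _).trans (iInf_le _ ⟨hs0, assouad_digitSet hN hne⟩)
    · filter_upwards [eventually_ge_atTop 1] with k hk
      exact lt_of_le_of_lt (fM_le n k hk) ha

end Pool.Agent.N326.AV
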