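import Pool.Agent.N326.AV.Fin

/-!
# Sets of fixed regularity on the line: one scale suffices
-/

set_option autoImplicit false

open Filter Topology Finset

namespace Pool.Agent.N326.AV

/-- the point of the line with coordinate `t` -/
noncomputable def pt (t : ℝ) : E 1 := WithLp.toLp 2 fun _ => t

theorem card_near {k : ℕ} {α β : ℝ} (hβ : β ≠ 0) :
    (((range k).filter fun j : ℕ => |α + j * β| ≤ 1).card : ℝ) ≤ 1 + 2 / |β| := by
  classical
  set J := (range k).filter fun j : ℕ => |α + j * β| ≤ 1 with hJ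
  have hβ0 : 0 < |β| := abs_pos.mpr hβ
  rcases J.eq_empty_or_nonempty with h | h
  · rw [h, card_empty, Nat.cast_zero]
    positivity
  · have h1 : J ⊆ Icc (J.min' h) (J.max' h) := fun j hj =>
      Finset.mem_Icc.mpr ⟨J.min'_le j hj, J.le_max' j hj⟩
    have h2 := card_le_card h1
    rw [Nat.card_Icc] at h2
    have h3 := (mem_filter.mp (J.min'_mem h)).2
    have h4 := (mem_filter.mp (J.max'_mem h)).2
    have h5 : J.min' h ≤ J.max' h := J.min'_le_max' h
    have h6 : ((J.max' h : ℝ) - J.min' h) * |β| ≤ 2 := by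
      have h7 : ((J.max' h : ℝ) - J.min' h) * |β| =
          |(α + J.max' h * β) - (α + J.min' h * β)| := by
        rw [show (α + (J.max' h : ℝ) * β) - (α + J.min' h * β) = ((J.max' h : ℝ) - J.min' h) * β by
          ring, abs_mul, abs_of_nonneg (sub_nonneg.mpr (by exact_mod_cast h5))]
      rw [h7]
      exact (abs_sub _ _).trans (by linarith)
    have h7 : (J.max' h : ℝ) - J.min' h ≤ 2 / |β| := by
      rw [le_div_iff₀ hβ0]
      exact h6
    have h8 : (J.card : ℝ) ≤ (J.max' h : ℝ) + 1 - J.min' h := by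
      have h9 : J.card + J.min' h ≤ J.max' h + 1 := by omega
      have h10 : ((J.card : ℝ) + J.min' h) ≤ (J.max' h : ℝ) + 1 := by exact_mod_cast h9
      linarith
    linarith

theorem sum_inv_dist (k v : ℕ) (hv : v < k) :
    ∑ w ∈ (range k).filter (fun w => w ≠ v), 1 / |(v : ℝ) - w| ≤ 2 * (1 + Real.log k) := by
  classical
  have hH : ∀ m : ℕ, m ≤ k → ∑ i ∈ range m, (1 : ℝ) / (i + 1) ≤ 1 + Real.log k := by
    intro m hm
    rcases Nat.eq_zero_or_pos m with h0 | h0
    · subst h0
      rw [range_zero, sum_empty]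
      have : 0 ≤ Real.log k := Real.log_natCast_nonneg _
      linarith
    · have h1 := harmonic_le_one_add_log m
      have h2 : ((harmonic m : ℚ) : ℝ) = ∑ i ∈ range m, (1 : ℝ) / (i + 1) := by
        unfold harmonic
        push_cast
        refine sum_congr rfl fun i _ => ?_
        rw [one_div]
      rw [h2] at h1
      refine h1.trans ?_
      have : Real.log m ≤ Real.log k :=
        Real.log_le_log (by exact_mod_cast h0) (by exact_mod_cast hm)
      linarith
  have hsplit : (range k).filter (fun w => w ≠ v) = range v ∪ Ico (v + 1) k := by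
    ext w
    rw [mem_filter, mem_range, mem_union, mem_range, Finset.mem_Ico]
    omega
  have hdisj : Disjoint (range v) (Ico (v + 1) k) := by
    rw [Finset.disjoint_left]
    intro w h1 h2
    rw [mem_range] at h1
    rw [Finset.mem_Ico] at h2
    omega
  rw [hsplit, sum_union hdisj]
  have h1 : ∑ w ∈ range v, 1 / |(v : ℝ) - w| = ∑ i ∈ range v, (1 : ℝ) / (i + 1) := by
    rw [← sum_range_reflect (fun i : ℕ => (1 : ℝ) / (i + 1)) v]
    refine sum_congr rfl fun w hw => ?_
    rw [mem_range] at hw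
    have h2 : ((v - 1 - w : ℕ) : ℝ) + 1 = (v : ℝ) - w := by
      have h3 : v - 1 - w + 1 + w = v := by omega
      have h4 : ((v - 1 - w : ℕ) : ℝ) + 1 + w = v := by exact_mod_cast h3
      linarith
    have h5 : (w : ℝ) < v := by exact_mod_cast hw
    rw [h2, abs_of_pos (by linarith)]
  have h2 : ∑ w ∈ Ico (v + 1) k, 1 / |(v : ℝ) - w| = ∑ i ∈ range (k - (v + 1)), (1 : ℝ) / (i + 1) := by
    rw [sum_Ico_eq_sum_range]
    refine sum_congr rfl fun i _ => ?_
    push_cast
    rw [show (v : ℝ) - (v + 1 + i) = -((i : ℝ) + 1) by ring, abs_neg, abs_of_pos (by positivity)]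
  rw [h1, h2]
  have h3 := hH v hv.le
  have h4 := hH (k - (v + 1)) (by omega)
  linarith

/-- a set that contains a `k`-term progression with every common difference in `[0,1]` has covering
number at least `k / (6 + 4 log k)` at scale one -/
theorem cover_one {k : ℕ} (hk : 1 ≤ k) {B : Set (E 1)} (hB : Bornology.IsBounded B)
    (hP : HasProgressions k B) : (k : ℝ) ≤ (6 + 4 * Real.log k) * coverNum B 1 := by
  classical
  have hk0 : (0 : ℝ) < k := by exact_mod_cast hk
  set M := coverNum B 1 with hM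
  obtain ⟨U, hU1, hU2⟩ : ∃ U : Fin M → Set (E 1),
      (∀ i, ∀ x ∈ U i, ∀ y ∈ U i, dist x y ≤ 1) ∧ B ⊆ ⋃ i, U i := exists_cover hB one_pos
  have h1 : ∀ v : ℕ, ∃ a : E 1, v < k → ∀ j < k, a + (j : ℝ) • pt ((v : ℝ) / k) ∈ B := by
    intro v
    by_cases hv : v < k
    · obtain ⟨a, ha⟩ := hP (pt ((v : ℝ) / k)) (fun i => by
        simp only [pt]
        constructor
        · positivity
        · rw [div_le_one hk0]
          exact_mod_cast hv.le)
      exact ⟨a, fun _ => ha⟩
    · exact ⟨0, fun h => absurd h hv⟩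
  choose a ha using h1
  have hM0 : 0 < M := by
    obtain ⟨i, -⟩ := Set.mem_iUnion.mp (hU2 (ha 0 (by omega) 0 (by omega)))
    exact Fin.pos i
  have h2 : ∀ v j : ℕ, ∃ i : Fin M, v < k → j < k → a v + (j : ℝ) • pt ((v : ℝ) / k) ∈ U i := by
    intro v j
    by_cases hvj : v < k ∧ j < k
    · obtain ⟨i, hi⟩ := Set.mem_iUnion.mp (hU2 (ha v hvj.1 j hvj.2))
      exact ⟨i, fun _ _ => hi⟩
    · exact ⟨⟨0, hM0⟩, fun h h' => absurd ⟨h, h'⟩ hvj⟩
  choose g hg using h2
  -- pairs of differences whose progressions meet at time `j`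
  let P : ℕ → Finset (ℕ × ℕ) := fun j =>
    (range k ×ˢ range k).filter fun p => g p.1 j = g p.2 j
  have hlow : ∀ j, (k : ℝ) ^ 2 ≤ M * (P j).card := by
    intro j
    have h3 : ((P j).card : ℝ) = ∑ i : Fin M, (((range k).filter fun v => g v j = i).card : ℝ) ^ 2 := by
      have h4 : (P j).card = ∑ i : Fin M, ((range k).filter fun v => g v j = i).card ^ 2 := by
        rw [card_eq_sum_card_fiberwise (f := fun p : ℕ × ℕ => g p.1 j) (t := univ)
          (fun _ _ => mem_univ _)]
        refine sum_congr rfl fun i _ => ?_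
        rw [sq, ← card_product]
        congr 1
        ext p
        simp only [P, mem_filter, mem_product]
        constructor
        · rintro ⟨⟨⟨h5, h6⟩, h7⟩, h8⟩
          exact ⟨⟨h5, h8⟩, h6, h7 ▸ h8⟩
        · rintro ⟨⟨h5, h6⟩, h7, h8⟩
          exact ⟨⟨⟨h5, h7⟩, h6.trans h8.symm⟩, h6⟩
      rw [h4]
      push_cast
      rfl
    have h4 : (k : ℝ) = ∑ i : Fin M, (((range k).filter fun v => g v j = i).card : ℝ) := by
      have h5 : (range k).card = ∑ i : Fin M, ((range k).filter fun v => g v j = i).card :=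
        card_eq_sum_card_fiberwise (fun _ _ => mem_univ _)
      rw [card_range] at h5
      exact_mod_cast h5
    rw [h3]
    calc (k : ℝ) ^ 2 = (∑ i : Fin M, (((range k).filter fun v => g v j = i).card : ℝ)) ^ 2 := by
          rw [← h4]
      _ ≤ (univ : Finset (Fin M)).card *
          ∑ i : Fin M, (((range k).filter fun v => g v j = i).card : ℝ) ^ 2 :=
          sq_sum_le_card_mul_sum_sq
      _ = _ := by rw [card_univ, Fintype.card_fin]
  -- for a fixed pair there are few times
  have hpair : ∀ v < k, ∀ w < k, v ≠ w →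
      (((range k).filter fun j => g v j = g w j).card : ℝ) ≤ 1 + 2 * k * (1 / |(v : ℝ) - w|) := by
    intro v hv w hw hvw
    have hne : ((v : ℝ) - w) ≠ 0 := sub_ne_zero.mpr (by exact_mod_cast hvw)
    have h3 : (range k).filter (fun j => g v j = g w j) ⊆
        (range k).filter fun j : ℕ => |(a v 0 - a w 0) + j * (((v : ℝ) - w) / k)| ≤ 1 := by
      intro j hj
      rw [mem_filter, mem_range] at hj ⊢
      refine ⟨hj.1, ?_⟩
      have h4 := hg v j hv hj.1
      have h5 := hg w j hw hj.1
      rw [← hj.2] at h5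
      have h6 := (coord_le_dist _ _ 0).trans (hU1 _ _ h4 _ h5)
      refine le_of_eq_of_le ?_ h6
      simp only [pt, PiLp.add_apply, PiLp.smul_apply, smul_eq_mul]
      congr 1
      ring
    have h4 := card_near (k := k) (α := a v 0 - a w 0) (β := ((v : ℝ) - w) / k)
      (div_ne_zero hne hk0.ne')
    calc (((range k).filter fun j => g v j = g w j).card : ℝ)
        ≤ (((range k).filter fun j : ℕ =>
            |(a v 0 - a w 0) + j * (((v : ℝ) - w) / k)| ≤ 1).card : ℝ) := by
          exact_mod_cast card_le_card h3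
      _ ≤ 1 + 2 / |((v : ℝ) - w) / k| := h4
      _ = 1 + 2 * k * (1 / |(v : ℝ) - w|) := by
          rw [abs_div, abs_of_pos hk0]
          have : |(v : ℝ) - w| ≠ 0 := abs_ne_zero.mpr hne
          field_simp
  have hsum : ∑ j ∈ range k, ((P j).card : ℝ) ≤ k ^ 2 * (6 + 4 * Real.log k) := by
    have h3 : ∑ j ∈ range k, ((P j).card : ℝ) =
        ∑ v ∈ range k, ∑ w ∈ range k, (((range k).filter fun j => g v j = g w j).card : ℝ) := by
      have h4 : ∀ j, ((P j).card : ℝ) =
          ∑ v ∈ range k, ∑ w ∈ range k, if g v j = g w j then (1 : ℝ) else 0 := by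
        intro j
        simp only [P]
        rw [card_filter, sum_product]
        push_cast
        rfl
      simp_rw [h4]
      rw [sum_comm]
      refine sum_congr rfl fun v _ => ?_
      rw [sum_comm]
      refine sum_congr rfl fun w _ => ?_
      rw [card_filter]
      push_cast
      rfl
    rw [h3]
    have h5 : ∀ v ∈ range k, ∑ w ∈ range k, (((range k).filter fun j => g v j = g w j).card : ℝ) ≤
        k * (6 + 4 * Real.log k) := by
      intro v hv
      rw [mem_range] at hv
      rw [← sum_filter_add_sum_filter_not (range k) (fun w => w ≠ v)]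
      have h6 : ∑ w ∈ (range k).filter (fun w => w ≠ v),
          (((range k).filter fun j => g v j = g w j).card : ℝ) ≤
          k + 2 * k * (2 * (1 + Real.log k)) := by
        calc ∑ w ∈ (range k).filter (fun w => w ≠ v),
              (((range k).filter fun j => g v j = g w j).card : ℝ)
            ≤ ∑ w ∈ (range k).filter (fun w => w ≠ v), (1 + 2 * k * (1 / |(v : ℝ) - w|)) := by
              refine sum_le_sum fun w hw => ?_
              rw [mem_filter, mem_range] at hw
              exact hpair v hv w hw.1 (Ne.symm hw.2)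
          _ = ((range k).filter (fun w => w ≠ v)).card +
              2 * k * ∑ w ∈ (range k).filter (fun w => w ≠ v), 1 / |(v : ℝ) - w| := by
              rw [sum_add_distrib, sum_const, nsmul_eq_mul, mul_one, ← mul_sum]
          _ ≤ k + 2 * k * (2 * (1 + Real.log k)) := by
              refine add_le_add ?_ (mul_le_mul_of_nonneg_left (sum_inv_dist k v hv) (by positivity))
              have := card_filter_le (range k) (fun w => w ≠ v)
              rw [card_range] at this
              exact_mod_cast this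
      have h7 : ∑ w ∈ (range k).filter (fun w => ¬ w ≠ v),
          (((range k).filter fun j => g v j = g w j).card : ℝ) ≤ k := by
        have h8 : (range k).filter (fun w => ¬ w ≠ v) = {v} := by
          ext w
          rw [mem_filter, mem_range, mem_singleton]
          omega
        rw [h8, sum_singleton]
        have := card_filter_le (range k) (fun j => g v j = g v j)
        rw [card_range] at this
        exact_mod_cast this
      nlinarith
    refine (sum_le_sum h5).trans ?_
    rw [sum_const, card_range, nsmul_eq_mul]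
    nlinarith
  have h3 : (k : ℝ) * (k : ℝ) ^ 2 ≤ M * (k ^ 2 * (6 + 4 * Real.log k)) := by
    calc (k : ℝ) * (k : ℝ) ^ 2 = ∑ _j ∈ range k, (k : ℝ) ^ 2 := by
          rw [sum_const, card_range, nsmul_eq_mul]
      _ ≤ ∑ j ∈ range k, (M : ℝ) * (P j).card := sum_le_sum fun j _ => hlow j
      _ = M * ∑ j ∈ range k, ((P j).card : ℝ) := by rw [mul_sum]
      _ ≤ M * (k ^ 2 * (6 + 4 * Real.log k)) := mul_le_mul_of_nonneg_left hsum (by positivity)
  have h4 : (0 : ℝ) < (k : ℝ) ^ 2 := by positivity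
  have h5 : (k : ℝ) ^ 2 * k ≤ (k : ℝ) ^ 2 * ((6 + 4 * Real.log k) * M) := by linarith
  exact le_of_mul_le_mul_left h5 h4

/-- sets whose regularity constant is at most a small power of `k` -/
theorem regularity_constant (ε : ℝ) (hε : 0 < ε) : ∃ k₀ : ℕ, ∀ k : ℕ, k₀ ≤ k →
    ∀ C : ℝ, C ≤ (k : ℝ) ^ (ε / 4) → ∀ (B : Set (E 1)) (x₀ : E 1) (s : ℝ),
    B ⊆ Metric.closedBall x₀ (C * k) → HasProgressions k B →
    (∀ (x : E 1) (δ ρ : ℝ), 0 < δ → δ ≤ ρ →
      (coverNum (B ∩ Metric.closedBall x ρ) δ : ℝ) ≤ C * (ρ / δ) ^ s) → 1 - ε ≤ s := by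
  -- the growth
  have h1 : ∀ᶠ k : ℕ in atTop, (6 + 4 * Real.log k) < (k : ℝ) ^ (ε / 2) := by
    have hε2 : 0 < ε / 2 := by linarith
    have h2 : Tendsto (fun k : ℕ => (6 + 4 * Real.log k) / (k : ℝ) ^ (ε / 2)) atTop (𝓝 0) := by
      have h3 : Tendsto (fun k : ℕ => Real.log k / (k : ℝ) ^ (ε / 2)) atTop (𝓝 0) :=
        ((isLittleO_log_rpow_atTop hε2).tendsto_div_nhds_zero).comp tendsto_natCast_atTop_atTop
      have h4 : Tendsto (fun k : ℕ => (1 : ℝ) / (k : ℝ) ^ (ε / 2)) atTop (𝓝 0) := by
        have h5 : Tendsto (fun k : ℕ => (k : ℝ) ^ (ε / 2)) atTop atTop :=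
          (tendsto_rpow_atTop hε2).comp tendsto_natCast_atTop_atTop
        exact h5.const_div_atTop 1
      have h5 := (h4.const_mul 6).add (h3.const_mul 4)
      rw [mul_zero, mul_zero, add_zero] at h5
      refine h5.congr fun k => ?_
      ring
    filter_upwards [h2.eventually (gt_mem_nhds (show (0 : ℝ) < 1 by norm_num)),
      eventually_ge_atTop 1] with k h3 h4
    have h5 : (0 : ℝ) < (k : ℝ) ^ (ε / 2) := by
      have : (0 : ℝ) < k := by exact_mod_cast h4
      positivity
    rwa [div_lt_one h5] at h3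
  obtain ⟨k₀, hk₀⟩ := eventually_atTop.mp h1
  refine ⟨max k₀ 1, fun k hk C hC B x₀ s hB hP hreg => ?_⟩
  have hk1 : 1 ≤ k := (le_max_right _ _).trans hk
  have hk0 : (1 : ℝ) ≤ k := by exact_mod_cast hk1
  set C₁ : ℝ := max C 1 with hC₁
  have hC1 : 1 ≤ C₁ := le_max_right _ _
  have hC2 : C₁ ≤ (k : ℝ) ^ (ε / 4) := max_le hC (Real.one_le_rpow hk0 (by linarith))
  by_contra hs
  push Not at hs
  have hbd : Bornology.IsBounded B := Metric.isBounded_closedBall.subset hB
  have h2 := cover_one hk1 hbd hP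
  have hρ : (1 : ℝ) ≤ C₁ * k := by nlinarith
  have hB' : B ∩ Metric.closedBall x₀ (C₁ * k) = B := by
    refine Set.inter_eq_left.mpr (hB.trans (Metric.closedBall_subset_closedBall ?_))
    exact mul_le_mul_of_nonneg_right (le_max_left _ _) (by linarith)
  have h3 := hreg x₀ 1 (C₁ * k) one_pos hρ
  rw [hB', div_one] at h3
  have h4 : (C₁ * k) ^ s ≤ C₁ * (k : ℝ) ^ (1 - ε) := by
    calc (C₁ * k) ^ s ≤ (C₁ * k) ^ (1 - ε) := Real.rpow_le_rpow_of_exponent_le hρ hs.le
      _ = C₁ ^ (1 - ε) * (k : ℝ) ^ (1 - ε) := Real.mul_rpow (by linarith) (by linarith)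
      _ ≤ C₁ * (k : ℝ) ^ (1 - ε) := by
          refine mul_le_mul_of_nonneg_right ?_ (by positivity)
          calc C₁ ^ (1 - ε) ≤ C₁ ^ (1 : ℝ) :=
                Real.rpow_le_rpow_of_exponent_le hC1 (by linarith)
            _ = C₁ := Real.rpow_one _
  have h5 : (coverNum B 1 : ℝ) ≤ C₁ * C₁ * (k : ℝ) ^ (1 - ε) := by
    have h6 : 0 ≤ (C₁ * k) ^ s := Real.rpow_nonneg (by linarith) _
    calc (coverNum B 1 : ℝ) ≤ C * (C₁ * k) ^ s := h3
      _ ≤ C₁ * (C₁ * k) ^ s := mul_le_mul_of_nonneg_right (le_max_left _ _) h6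
      _ ≤ C₁ * (C₁ * (k : ℝ) ^ (1 - ε)) := mul_le_mul_of_nonneg_left h4 (by linarith)
      _ = _ := by ring
  have h6 := hk₀ k ((le_max_left _ _).trans hk)
  have h7 : 0 ≤ Real.log k := Real.log_natCast_nonneg _
  have h8 : (0 : ℝ) < (k : ℝ) ^ (1 - ε) := Real.rpow_pos_of_pos (by linarith) _
  have h9 : (k : ℝ) ^ ε * (k : ℝ) ^ (1 - ε) = k := by
    rw [← Real.rpow_add (by linarith), show ε + (1 - ε) = 1 by ring, Real.rpow_one]
  have h11 : C₁ * C₁ ≤ (k : ℝ) ^ (ε / 2) := by
    calc C₁ * C₁ ≤ (k : ℝ) ^ (ε / 4) * (k : ℝ) ^ (ε / 4) :=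
          mul_le_mul hC2 hC2 (by linarith) (by positivity)
      _ = (k : ℝ) ^ (ε / 2) := by
          rw [← Real.rpow_add (by linarith)]
          congr 1
          ring
  have h12 : C₁ * C₁ * (6 + 4 * Real.log k) < (k : ℝ) ^ ε := by
    calc C₁ * C₁ * (6 + 4 * Real.log k) ≤ (k : ℝ) ^ (ε / 2) * (6 + 4 * Real.log k) :=
          mul_le_mul_of_nonneg_right h11 (by linarith)
      _ < (k : ℝ) ^ (ε / 2) * (k : ℝ) ^ (ε / 2) :=
          mul_lt_mul_of_pos_left h6 (Real.rpow_pos_of_pos (by linarith) _)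
      _ = (k : ℝ) ^ ε := by
          rw [← Real.rpow_add (by linarith)]
          congr 1
          ring
  have h10 : (6 + 4 * Real.log k) * coverNum B 1 < k := by
    calc (6 + 4 * Real.log k) * coverNum B 1 ≤ (6 + 4 * Real.log k) * (C₁ * C₁ * (k : ℝ) ^ (1 - ε)) :=
          mul_le_mul_of_nonneg_left h5 (by linarith)
      _ = (C₁ * C₁ * (6 + 4 * Real.log k)) * (k : ℝ) ^ (1 - ε) := by ring
      _ < (k : ℝ) ^ ε * (k : ℝ) ^ (1 - ε) := mul_lt_mul_of_pos_right h12 h8
      _ = k := h9
  linarith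

end Pool.Agent.N326.AV
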