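import Pool.Agent.N326.AV.Block

/-!
# The Hausdorff dimension of digit sets
-/

set_option autoImplicit false

open Filter Topology Finset
open scoped NNReal ENNReal

namespace Pool.Agent.N326.AV

/-- the Hausdorff dimension is at most the lower Minkowski dimension -/
theorem dimH_le_of_lower {n : ℕ} {B : Set (E n)} (hB : Bornology.IsBounded B) {s : ℝ}
    (h : lowerMinkowski B < (s : EReal)) : dimH B ≤ ENNReal.ofReal s := by
  classical
  borelize (E n)
  have h0 : (0 : EReal) ≤ lowerMinkowski B := by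
    refine le_liminf_of_le (by isBoundedDefault) ?_
    filter_upwards [eventually_small] with δ hδ
    refine EReal.coe_nonneg.mpr (div_nonneg (Real.log_natCast_nonneg _) ?_)
    exact (Real.log_pos (by rw [lt_div_iff₀ hδ.1]; linarith [hδ.2])).le
  have hs : 0 < s := by
    have := lt_of_le_of_lt h0 h
    exact_mod_cast this
  have h1 : ∃ᶠ δ : ℝ in 𝓝[>] (0 : ℝ),
      ((Real.log (coverNum B δ) / Real.log (1 / δ) : ℝ) : EReal) < s :=
    frequently_lt_of_liminf_lt (by isBoundedDefault) h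
  have h2 : ∀ j : ℕ, ∃ δ : ℝ, 0 < δ ∧ δ < 1 / ((j : ℝ) + 2) ∧ (coverNum B δ : ℝ) ≤ (1 / δ) ^ s := by
    intro j
    have h3 : (0 : ℝ) < 1 / ((j : ℝ) + 2) := by positivity
    obtain ⟨δ, h4, h5⟩ := (h1.and_eventually (Ioo_mem_nhdsGT h3)).exists
    have hδ1 : δ < 1 := by
      refine h5.2.trans_le ?_
      rw [div_le_one (by positivity)]
      linarith [Nat.cast_nonneg (α := ℝ) j]
    refine ⟨δ, h5.1, h5.2, ?_⟩
    have hδ0 := h5.1
    have h10 : Real.log (coverNum B δ) / Real.log (1 / δ) < s := by exact_mod_cast h4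
    have hlog : 0 < Real.log (1 / δ) := Real.log_pos (by rw [lt_div_iff₀ hδ0]; linarith)
    rw [div_lt_iff₀ hlog] at h10
    rcases Nat.eq_zero_or_pos (coverNum B δ) with h11 | h11
    · rw [h11, Nat.cast_zero]
      positivity
    · have h12 : (0 : ℝ) < coverNum B δ := by exact_mod_cast h11
      rw [← Real.log_le_log_iff h12 (by positivity), Real.log_rpow (by positivity)]
      exact h10.le
  choose δ hδ0 hδ1 hδ2 using h2
  choose U hU1 hU2 using fun j => exists_cover hB (hδ0 j)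
  have hr : Tendsto (fun j : ℕ => ENNReal.ofReal (δ j)) atTop (𝓝 0) := by
    rw [← ENNReal.ofReal_zero]
    refine ENNReal.tendsto_ofReal ?_
    refine squeeze_zero (fun j => (hδ0 j).le) (fun j => (hδ1 j).le) ?_
    have := tendsto_one_div_add_atTop_nhds_zero_nat (𝕜 := ℝ)
    refine squeeze_zero (fun j => by positivity) (fun j => ?_) this
    exact one_div_le_one_div_of_le (by positivity) (by linarith)
  have hdiam : ∀ j (i : Fin (coverNum B (δ j))), Metric.ediam (U j i) ≤ ENNReal.ofReal (δ j) := by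
    intro j i
    refine Metric.ediam_le fun x hx y hy => ?_
    rw [edist_dist]
    exact ENNReal.ofReal_le_ofReal (hU1 j i x hx y hy)
  have h3 := MeasureTheory.Measure.hausdorffMeasure_le_liminf_sum (X := E n) s B
    (l := atTop) (fun j : ℕ => ENNReal.ofReal (δ j)) hr (fun j => U j)
    (Eventually.of_forall hdiam) (Eventually.of_forall hU2)
  have h4 : ∀ j : ℕ, ∑ i, Metric.ediam (U j i) ^ s ≤ 1 := by
    intro j
    calc ∑ i, Metric.ediam (U j i) ^ s ≤ ∑ _i : Fin (coverNum B (δ j)), ENNReal.ofReal (δ j) ^ s :=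
          Finset.sum_le_sum fun i _ => ENNReal.rpow_le_rpow (hdiam j i) hs.le
      _ = (coverNum B (δ j) : ℝ≥0∞) * ENNReal.ofReal (δ j) ^ s := by
          rw [Finset.sum_const, Finset.card_univ, Fintype.card_fin, nsmul_eq_mul]
      _ = ENNReal.ofReal ((coverNum B (δ j) : ℝ) * (δ j) ^ s) := by
          rw [ENNReal.ofReal_mul (by positivity), ENNReal.ofReal_natCast,
            ENNReal.ofReal_rpow_of_pos (hδ0 j)]
      _ ≤ ENNReal.ofReal 1 := by
          refine ENNReal.ofReal_le_ofReal ?_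
          calc (coverNum B (δ j) : ℝ) * (δ j) ^ s ≤ (1 / δ j) ^ s * (δ j) ^ s :=
                mul_le_mul_of_nonneg_right (hδ2 j) (Real.rpow_nonneg (hδ0 j).le _)
            _ = 1 := by
                rw [← Real.mul_rpow (by have := hδ0 j; positivity) (hδ0 j).le, one_div,
                  inv_mul_cancel₀ (hδ0 j).ne', Real.one_rpow]
      _ = 1 := ENNReal.ofReal_one
  have h5 : MeasureTheory.Measure.hausdorffMeasure s B ≤ 1 :=
    h3.trans ((liminf_le_liminf (Eventually.of_forall h4)).trans (by simp))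
  have h6 : MeasureTheory.Measure.hausdorffMeasure ((s.toNNReal : ℝ≥0) : ℝ) B ≠ ⊤ := by
    rw [Real.coe_toNNReal s hs.le]
    exact ne_top_of_le_ne_top ENNReal.one_ne_top h5
  exact dimH_le_of_hausdorffMeasure_ne_top h6

/-- distinct digit sequences give distant points, if the digits are far from one another -/
theorem dist_lower {n N L : ℕ} (hN : 2 ≤ N) {H : Finset (Fin n → ℤ)} {L' : ℕ}
    (hL' : ∀ d ∈ H, ∀ c, |d c| ≤ (L' : ℤ))
    (hval : ∀ x ∈ digitSet N H, ∀ c, |x c| ≤ (L : ℝ))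
    (hsep : ∀ a ∈ H, ∀ b ∈ H, a ≠ b → ∃ c, ((2 * L + 1 : ℕ) : ℤ) ≤ |a c - b c|)
    {w w' : ℕ → Fin n → ℤ} (hw : ∀ i, w i ∈ H) (hw' : ∀ i, w' i ∈ H) (i : ℕ)
    (h1 : ∀ j < i, w j = w' j) (h2 : w i ≠ w' i) :
    ((N : ℝ) ^ (i + 1))⁻¹ ≤ dist (val N w) (val N w' : E n) := by
  obtain ⟨c, hc⟩ := hsep _ (hw i) _ (hw' i) h2
  refine le_trans ?_ (coord_le_dist (val N w) (val N w') c)
  rw [val_split hN (fun i c => hL' _ (hw i) c) (i + 1) c,
    val_split hN (fun i c => hL' _ (hw' i) c) (i + 1) c]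
  have h3 : (head N w (i + 1) c : ℝ) - head N w' (i + 1) c = ((w i c - w' i c : ℤ) : ℝ) := by
    simp only [head]
    rw [head_congr N h1]
    push_cast
    ring
  have h4 := hval _ ⟨fun j => w (j + (i + 1)), fun j => hw _, rfl⟩ c
  have h5 := hval _ ⟨fun j => w' (j + (i + 1)), fun j => hw' _, rfl⟩ c
  have h6 : ((2 * L + 1 : ℕ) : ℝ) ≤ |((w i c - w' i c : ℤ) : ℝ)| := by exact_mod_cast hc
  rw [← mul_sub, abs_mul, abs_of_nonneg (by positivity : (0 : ℝ) ≤ ((N : ℝ) ^ (i + 1))⁻¹)]
  refine le_mul_of_one_le_right (by positivity) ?_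
  have h7 : (head N w (i + 1) c : ℝ) + val N (fun j => w (j + (i + 1))) c -
      ((head N w' (i + 1) c : ℝ) + val N (fun j => w' (j + (i + 1))) c) =
      ((w i c - w' i c : ℤ) : ℝ) + (val N (fun j => w (j + (i + 1))) c -
        val N (fun j => w' (j + (i + 1))) c) := by
    rw [← h3]
    ring
  rw [h7]
  push_cast at h6
  have h8 := abs_sub_abs_le_abs_sub ((w i c - w' i c : ℤ) : ℝ)
    (-(val N (fun j => w (j + (i + 1))) c - val N (fun j => w' (j + (i + 1))) c))
  rw [sub_neg_eq_add, abs_neg] at h8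
  have h9 : |val N (fun j => w (j + (i + 1))) c - val N (fun j => w' (j + (i + 1))) c| ≤
      2 * (L : ℝ) := by
    refine (abs_sub _ _).trans ?_
    linarith
  push_cast at h8 ⊢
  linarith

theorem dimH_lower {n N L : ℕ} (hN : 2 ≤ N) {H : Finset (Fin n → ℤ)}
    (hval : ∀ x ∈ digitSet N H, ∀ c, |x c| ≤ (L : ℝ))
    (hsep : ∀ a ∈ H, ∀ b ∈ H, a ≠ b → ∃ c, ((2 * L + 1 : ℕ) : ℤ) ≤ |a c - b c|)
    (hH : 2 ≤ H.card) :
    ENNReal.ofReal (Real.log H.card / Real.log N) ≤ dimH (digitSet N H) := by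
  classical
  obtain ⟨L', hL'⟩ := exists_bound H
  have hN' : (2 : ℝ) ≤ N := by exact_mod_cast hN
  have hlogN : 0 < Real.log N := Real.log_pos (by linarith)
  set M : ℕ := H.card with hM
  have hM' : (2 : ℝ) ≤ M := by exact_mod_cast hH
  have hM0 : (0 : ℝ) < M := by linarith
  set s : ℝ := Real.log M / Real.log N with hs
  have hs0 : 0 < s := div_pos (Real.log_pos (by linarith)) hlogN
  have hNs : (N : ℝ) ^ s = M := by
    rw [Real.rpow_def_of_pos (by linarith), hs, mul_div_cancel₀ _ hlogN.ne', Real.exp_log hM0]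
  let e : H ≃ Fin M := H.equivFin
  -- comparison
  have key : ∀ w w' : ℕ → H, |Real.ofDigits (fun i => e (w i)) - Real.ofDigits (fun i => e (w' i))| ≤
      M * (dist (val N (fun i => (w i : Fin n → ℤ))) (val N (fun i => (w' i : Fin n → ℤ)) : E n)) ^ s := by
    intro w w'
    by_cases hww : w = w'
    · rw [hww, sub_self, abs_zero]
      positivity
    · have hex : ∃ i, w i ≠ w' i := Function.ne_iff.mp hww
      obtain ⟨i, hi, hmin⟩ : ∃ i, w i ≠ w' i ∧ ∀ j < i, w j = w' j :=
        ⟨Nat.find hex, Nat.find_spec hex, fun j hj => not_not.mp (Nat.find_min hex hj)⟩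
      have h1 := dist_lower hN hL' hval hsep (w := fun i => (w i : Fin n → ℤ))
        (w' := fun i => (w' i : Fin n → ℤ)) (fun i => (w i).2) (fun i => (w' i).2) i
        (fun j hj => by rw [hmin j hj]) (fun h => hi (Subtype.ext h))
      have h2 := Real.abs_ofDigits_sub_ofDigits_le (x := fun i => e (w i)) (y := fun i => e (w' i))
        (n := i) (fun j hj => by rw [hmin j hj])
      refine h2.trans ?_
      have h3 : ((M : ℝ) ^ i)⁻¹ = M * (((N : ℝ) ^ (i + 1))⁻¹) ^ s := by
        rw [Real.inv_rpow (by positivity), ← Real.rpow_pow_comm (by linarith) s (i + 1), hNs,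
          pow_succ, mul_inv]
        field_simp
      rw [h3]
      refine mul_le_mul_of_nonneg_left ?_ hM0.le
      exact Real.rpow_le_rpow (by positivity) h1 hs0.le
  have hinj : ∀ w w' : ℕ → H, (val N (fun i => (w i : Fin n → ℤ)) : E n) =
      val N (fun i => (w' i : Fin n → ℤ)) →
      Real.ofDigits (fun i => e (w i)) = Real.ofDigits (fun i => e (w' i)) := by
    intro w w' h
    have h1 := key w w'
    rw [h, dist_self, Real.zero_rpow hs0.ne', mul_zero] at h1
    have := abs_nonpos_iff.mp h1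
    linarith
  have hrep : ∀ x : E n, ∃ w : ℕ → H, x ∈ digitSet N H → x = val N (fun i => (w i : Fin n → ℤ)) := by
    intro x
    by_cases hx : x ∈ digitSet N H
    · obtain ⟨w, hw, hxw⟩ := hx
      exact ⟨fun i => ⟨w i, hw i⟩, fun _ => hxw⟩
    · have hne : H.Nonempty := by
        rw [← card_pos]
        omega
      exact ⟨fun _ => ⟨hne.choose, hne.choose_spec⟩, fun h => absurd h hx⟩
  choose g hg using hrep
  let f : E n → ℝ := fun x => Real.ofDigits fun i => e (g x i)
  have hf : ∀ w : ℕ → H, f (val N (fun i => (w i : Fin n → ℤ))) = Real.ofDigits fun i => e (w i) := by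
    intro w
    refine hinj _ _ ?_
    exact (hg _ ⟨_, fun i => (w i).2, rfl⟩).symm
  have hhol : HolderOnWith (M : ℝ≥0) s.toNNReal f (digitSet N H) := by
    intro x hx y hy
    have h1 := key (g x) (g y)
    rw [← hg x hx, ← hg y hy] at h1
    rw [edist_dist, edist_dist, Real.dist_eq, Real.coe_toNNReal s hs0.le,
      ENNReal.ofReal_rpow_of_nonneg dist_nonneg hs0.le]
    have h2 : ((M : ℝ≥0) : ℝ≥0∞) = ENNReal.ofReal (M : ℝ) := by
      rw [ENNReal.ofReal_natCast]
      rfl
    rw [h2, ← ENNReal.ofReal_mul hM0.le]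
    exact ENNReal.ofReal_le_ofReal h1
  have himg : Set.Icc (0 : ℝ) 1 ⊆ f '' digitSet N H := by
    intro t ht
    obtain ⟨d, -, hd⟩ := Real.ofDigits_SurjOn (b := M) (by omega) ht
    refine ⟨val N (fun i => ((e.symm (d i) : H) : Fin n → ℤ)), ⟨_, fun i => (e.symm (d i)).2, rfl⟩, ?_⟩
    rw [hf (fun i => e.symm (d i)), ← hd]
    simp
  have h1 : dimH (f '' digitSet N H) ≤ dimH (digitSet N H) / (s.toNNReal : ℝ≥0∞) :=
    hhol.dimH_image_le (by simpa using hs0)
  have h2 : (1 : ℝ≥0∞) ≤ dimH (f '' digitSet N H) := by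
    refine le_trans ?_ (dimH_mono himg)
    rw [Real.dimH_of_nonempty_interior (by rw [interior_Icc]; exact Set.nonempty_Ioo.mpr one_pos)]
    simp
  have h3 := h2.trans h1
  have hs' : (s.toNNReal : ℝ≥0∞) ≠ 0 := by simpa using hs0
  rw [ENNReal.le_div_iff_mul_le (Or.inl hs') (Or.inl ENNReal.coe_ne_top), one_mul] at h3
  exact h3

end Pool.Agent.N326.AV
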