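import Pool.Agent.N326.AV.Assouad

/-!
# Progressions in digit sets, and the digit set of a set with progressions
-/

set_option autoImplicit false

open Filter Topology Finset

namespace Pool.Agent.N326.AV

/-- `B` contains a `k`-term progression with every common difference in `[0,1]^n`. -/
def HasProgressions {n : ℕ} (k : ℕ) (B : Set (EuclideanSpace ℝ (Fin n))) : Prop :=
  ∀ r : EuclideanSpace ℝ (Fin n), (∀ i, r i ∈ Set.Icc (0 : ℝ) 1) →
    ∃ a : EuclideanSpace ℝ (Fin n), ∀ j : ℕ, j < k → a + (j : ℝ) • r ∈ B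

/-- the finite set `D ⊆ ℤ^n` contains the `k`-term progression with first term `A v` and common
difference `v`, for every `v ∈ {0, …, N-1}^n` -/
def Digits {n : ℕ} (k N : ℕ) (A : (Fin n → ℤ) → Fin n → ℤ) (D : Finset (Fin n → ℤ)) : Prop :=
  ∀ v : Fin n → ℤ, (∀ c, 0 ≤ v c ∧ v c < N) → ∀ j : ℕ, j < k → A v + (j : ℤ) • v ∈ D

theorem exists_digits {N : ℕ} (hN : 2 ≤ N) {n : ℕ} {r : E n} (hr : ∀ c, r c ∈ Set.Icc (0 : ℝ) 1) :
    ∃ v : ℕ → Fin n → ℤ, (∀ i c, 0 ≤ v i c ∧ v i c < N) ∧ r = val N v := by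
  have h1 : ∀ c, ∃ d : ℕ → Fin N, Real.ofDigits d = r c := by
    intro c
    obtain ⟨d, -, hd⟩ := Real.ofDigits_SurjOn (b := N) (by omega) (hr c)
    exact ⟨d, hd⟩
  choose d hd using h1
  refine ⟨fun i c => (d c i : ℕ), fun i c => ⟨by positivity, ?_⟩, ?_⟩
  · show ((d c i : ℕ) : ℤ) < N
    exact_mod_cast (d c i).2
  · ext c
    rw [val_apply, ← hd c]
    unfold Real.ofDigits Real.ofDigitsTerm
    simp

/-- the digit set contains the progressions, with first terms chosen digit by digit -/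
theorem digitSet_progression {n k N : ℕ} (hN : 2 ≤ N) (hk : 1 ≤ k)
    {A : (Fin n → ℤ) → Fin n → ℤ} {D : Finset (Fin n → ℤ)} (hD : Digits k N A D)
    (v : ℕ → Fin n → ℤ) (hv : ∀ i c, 0 ≤ v i c ∧ v i c < N) (j : ℕ) (hj : j < k) :
    val N (fun i => A (v i)) + (j : ℝ) • val N v = val N (fun i => A (v i) + (j : ℤ) • v i) ∧
      val N (fun i => A (v i)) + (j : ℝ) • (val N v : E n) ∈ digitSet N D := by
  obtain ⟨L, hL⟩ := exists_bound D
  have hA : ∀ i c, |A (v i) c| ≤ (L : ℤ) := by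
    intro i c
    have := hL _ (hD (v i) (hv i) 0 (by omega)) c
    simpa using this
  have hv' : ∀ i c, |v i c| ≤ (N : ℤ) := by
    intro i c
    rw [abs_of_nonneg (hv i c).1]
    exact (hv i c).2.le
  have h1 : val N (fun i => A (v i)) + (j : ℝ) • val N v =
      (val N (fun i => A (v i) + (j : ℤ) • v i) : E n) := by
    ext c
    rw [PiLp.add_apply, PiLp.smul_apply, smul_eq_mul, val_apply, val_apply, val_apply,
      ← tsum_mul_left, ← Summable.tsum_add (digit_summable hN (a := fun i => A (v i) c) fun i => hA i c)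
        ((digit_summable hN (a := fun i => v i c) fun i => hv' i c).mul_left _)]
    congr 1
    funext i
    simp only [Pi.add_apply, Pi.smul_apply, smul_eq_mul]
    push_cast
    ring
  refine ⟨h1, ?_⟩
  rw [h1]
  exact ⟨_, fun i => hD (v i) (hv i) j hj, rfl⟩

theorem digitSet_hasProgressions {n k N : ℕ} (hN : 2 ≤ N) (hk : 1 ≤ k)
    {A : (Fin n → ℤ) → Fin n → ℤ} {D : Finset (Fin n → ℤ)} (hD : Digits k N A D) :
    HasProgressions k (digitSet N D) := by
  intro r hr
  obtain ⟨v, hv, rfl⟩ := exists_digits hN hr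
  exact ⟨_, fun j hj => (digitSet_progression hN hk hD v hv j hj).2⟩

/-- the vector of the integer parts -/
noncomputable def flo {n : ℕ} (x : E n) : Fin n → ℤ := fun c => ⌊x c⌋

/-- a set with progressions gives a digit set at every scale -/
theorem exists_digitSet {n k : ℕ} {B : Set (E n)} (hB : Bornology.IsBounded B)
    (hP : HasProgressions k B) {N : ℕ} (hN : 1 ≤ N) :
    ∃ (D : Finset (Fin n → ℤ)) (A : (Fin n → ℤ) → Fin n → ℤ), Digits k N A D ∧
      D.card ≤ 3 ^ n * coverNum B (N : ℝ)⁻¹ := by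
  classical
  have hN0 : (0 : ℝ) < N := by exact_mod_cast hN
  obtain ⟨U, hU1, hU2⟩ := exists_cover hB (inv_pos.mpr hN0)
  have h1 : ∀ i, ∃ P : Finset (Fin n → ℤ), P.card ≤ 3 ^ n ∧
      ∀ x ∈ U i, flo ((N : ℝ) • x) ∈ P := by
    intro i
    by_cases hi : (U i).Nonempty
    · obtain ⟨y, hy⟩ := hi
      refine ⟨Fintype.piFinset fun c => Icc (flo ((N : ℝ) • y) c - 1) (flo ((N : ℝ) • y) c + 1),
        ?_, fun x hx => ?_⟩
      · rw [Fintype.card_piFinset]
        refine (Finset.prod_le_prod' (g := fun _ => 3) fun c _ => ?_).trans ?_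
        · rw [Int.card_Icc]
          omega
        · rw [Finset.prod_const, Finset.card_univ, Fintype.card_fin]
      · rw [Fintype.mem_piFinset]
        intro c
        have h2 := (coord_le_dist x y c).trans (hU1 i x hx y hy)
        have h3 : |(N : ℝ) * x c - N * y c| ≤ 1 := by
          rw [← mul_sub, abs_mul, abs_of_pos hN0]
          calc (N : ℝ) * |x c - y c| ≤ N * (N : ℝ)⁻¹ := mul_le_mul_of_nonneg_left h2 hN0.le
            _ = 1 := mul_inv_cancel₀ hN0.ne'
        rw [abs_le] at h3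
        rw [Finset.mem_Icc]
        simp only [flo, PiLp.smul_apply, smul_eq_mul]
        constructor
        · rw [Int.le_floor]
          push_cast
          linarith [Int.floor_le ((N : ℝ) * y c), h3.1]
        · have h4 : ⌊(N : ℝ) * x c⌋ < ⌊(N : ℝ) * y c⌋ + 1 + 1 := by
            rw [Int.floor_lt]
            push_cast
            linarith [Int.lt_floor_add_one ((N : ℝ) * y c), h3.2]
          omega
    · refine ⟨∅, by simp, fun x hx => absurd ⟨x, hx⟩ hi⟩
  choose P hP1 hP2 using h1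
  have h2 : ∀ v : Fin n → ℤ, ∃ a : E n, (∀ c, 0 ≤ v c ∧ v c < N) →
      ∀ j : ℕ, j < k → a + (j : ℝ) • ((N : ℝ)⁻¹ • toE v) ∈ B := by
    intro v
    by_cases hv : ∀ c, 0 ≤ v c ∧ v c < N
    · obtain ⟨a, ha⟩ := hP ((N : ℝ)⁻¹ • toE v) (fun c => by
        have h3 := hv c
        have h4 : (0 : ℝ) ≤ v c := by exact_mod_cast h3.1
        have h5 : (v c : ℝ) ≤ N := by exact_mod_cast h3.2.le
        simp only [toE, PiLp.smul_apply, smul_eq_mul]
        constructor
        · positivity
        · rw [inv_mul_le_iff₀ hN0, mul_one]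
          exact h5)
      exact ⟨a, fun _ => ha⟩
    · exact ⟨0, fun h => absurd h hv⟩
  choose a ha using h2
  refine ⟨univ.biUnion P, fun v => flo ((N : ℝ) • a v), fun v hv j hj => ?_, ?_⟩
  · obtain ⟨i, hi⟩ := Set.mem_iUnion.mp (hU2 (ha v hv j hj))
    have h3 := hP2 i _ hi
    rw [mem_biUnion]
    refine ⟨i, mem_univ _, ?_⟩
    have h4 : flo ((N : ℝ) • (a v + (j : ℝ) • ((N : ℝ)⁻¹ • toE v))) =
        flo ((N : ℝ) • a v) + (j : ℤ) • v := by
      funext c
      simp only [flo, toE, PiLp.smul_apply, PiLp.add_apply, smul_eq_mul, Pi.add_apply,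
        Pi.smul_apply]
      have h5 : (N : ℝ) * (a v c + (j : ℝ) * ((N : ℝ)⁻¹ * (v c : ℝ))) =
          (N : ℝ) * a v c + (((j : ℤ) * v c : ℤ) : ℝ) := by
        push_cast
        field_simp
      rw [h5, Int.floor_add_intCast]
    rw [h4] at h3
    exact h3
  · refine (card_biUnion_le).trans ?_
    refine (Finset.sum_le_card_nsmul _ _ (3 ^ n) fun i _ => hP1 i).trans ?_
    rw [Finset.card_univ, Fintype.card_fin, smul_eq_mul, mul_comm]

end Pool.Agent.N326.AV
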